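import Pool.Agent.R773.TE.Defs
import Pool.Agent.R552.FB.Defs

/-!
# Attractors of toral extensions: definitions
-/

set_option autoImplicit false
set_option linter.unusedSectionVars false

open scoped Manifold ContDiff Topology
open Filter Set Metric

universe u v w

namespace Pool.Agent.R773.TE

open Pool.Agent.H718R2.G Pool.Agent.TH80.OMS

/-- The nonwandering set of `g` is contained in the union of finitely many pairwise disjoint closed
sets `M i` with `g(M i) = M i`, each of which contains a point whose forward orbit is dense in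
`M i`. -/
def Spectral {X : Type u} [TopologicalSpace X] (g : X → X) : Prop :=
  ∃ (m : ℕ) (M : Fin m → Set X), (∀ i, IsClosed (M i)) ∧ (∀ i, g '' M i = M i) ∧
    (∀ i j, i ≠ j → Disjoint (M i) (M j)) ∧
    (∀ i, ∃ x ∈ M i, M i ⊆ closure (range fun n : ℕ => g^[n] x)) ∧ Omega g ⊆ ⋃ i, M i

/-- `g` is a finite composition of time-one maps of vector fields `J dh`, with one smooth function
`h` and smooth fields `J` of linear maps from the cotangent to the tangent spaces with
`ξ(Jξ) ≥ 0`. -/
def IsComp (n : ℕ) (N : Type u) [TopologicalSpace N] [ChartedSpace (V n) N]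
    [IsManifold (𝓡 n) ∞ N] (g : N → N) : Prop :=
  ∃ h : N → ℝ, Pool.Agent.R552.FA.Smooth (V n) h ∧
    Pool.Agent.R552.FB.Comp (E := V n) (N := N) (Pool.Agent.R552.FA.Dissipative ⊤) h g

/-- Every neighbourhood of `f` in `Diff^r(B)` contains some `g` with the property `Spectral` or
`IsComp`. -/
def IsLimit {d : ℕ} {B : Type v} [TopologicalSpace B] [ChartedSpace (V d) B]
    [IsManifold (𝓡 d) ∞ B] {r : ℕ∞} (f : DiffM d B r) : Prop :=
  ∀ U : Set (DiffM d B r), IsOpen[strongTop d B r] U → f ∈ U → ∃ g ∈ U,
    Spectral g ∨ IsComp d B g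

end Pool.Agent.R773.TE
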