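import Pool.Agent.R773.TE.Fin
import Pool.Agent.R773.TE.AtDefs
import Pool.Agent.R552.FB.Attr

/-!
# Attractors of toral extensions
-/

set_option autoImplicit false
set_option linter.unusedSectionVars false
set_option linter.style.haveILetI false

open scoped Manifold ContDiff Topology
open Filter Set Metric MeasureTheory

universe u v w

namespace Pool.Agent.R773.TE

open Pool.Agent.H718R2.G Pool.Agent.W564.SC Pool.Agent.TH80.OMS Pool.Agent.Y504.CO
open Pool.Agent.TH382.QC Pool.Agent.R773.FC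
open Pool.Agent.H922R3.CL (IsHypLin)

/-- A dense forward orbit visits every open set late. -/
theorem late {X : Type u} [TopologicalSpace X] {g : X → X} (hg : Continuous g) {M : Set X}
    (hM : g '' M = M) {x : X} (hd : M ⊆ closure (range fun n : ℕ => g^[n] x)) (L : ℕ) :
    ∀ z ∈ M, ∀ O ∈ 𝓝 z, ∃ n, L ≤ n ∧ g^[n] x ∈ O := by
  induction L with
  | zero =>
    intro z hz O hO
    obtain ⟨O', h1, h2, h3⟩ := mem_nhds_iff.1 hO
    obtain ⟨_, h4, n, rfl⟩ := _root_.mem_closure_iff.1 (hd hz) O' h2 h3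
    exact ⟨n, Nat.zero_le _, h1 h4⟩
  | succ L ih =>
    intro z hz O hO
    rw [← hM] at hz
    obtain ⟨z', hz', rfl⟩ := hz
    obtain ⟨n, hn, h1⟩ := ih z' hz' (g ⁻¹' O) (hg.continuousAt hO)
    refine ⟨n + 1, by omega, ?_⟩
    rw [Function.iterate_succ_apply']
    exact h1

/-- Mixing. -/
theorem mix {Y : Type u} [MetricSpace Y] {a : Y → Y} (hs : PerShadow a) (hc : ChainMix a)
    {V Q : Set Y} (hV : IsOpen V) (hQ : IsOpen Q) (hVn : V.Nonempty) (hQn : Q.Nonempty) :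
    ∃ L : ℕ, ∀ n, L ≤ n → ∃ y ∈ V, a^[n] y ∈ Q := by
  obtain ⟨v, hv⟩ := hVn
  obtain ⟨u, hu⟩ := hQn
  obtain ⟨ε1, hε1, h1⟩ := Metric.mem_nhds_iff.1 (hV.mem_nhds hv)
  obtain ⟨ε2, hε2, h2⟩ := Metric.mem_nhds_iff.1 (hQ.mem_nhds hu)
  obtain ⟨δ, hδ, hsh⟩ := hs (min ε1 ε2) (lt_min hε1 hε2)
  obtain ⟨L, hL⟩ := hc δ hδ
  refine ⟨L, fun n hn => ?_⟩
  obtain ⟨w1, a1, a2, a3⟩ := hL n hn v u
  obtain ⟨w2, b1, b2, b3⟩ := hL (L + 1) (by omega) u v
  obtain ⟨p, -, hp2⟩ := hsh (n + (L + 1)) (fun i => if i ≤ n then w1 i else w2 (i - n))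
    (by omega) (by
      have h3 : ¬ (n + (L + 1) ≤ n) := by omega
      simp only [h3, if_false, Nat.zero_le, if_true, Nat.add_sub_cancel_left, a1, b2])
    (by
      intro i hi
      by_cases h3 : i + 1 ≤ n
      · have h4 : i ≤ n := by omega
        simp only [h3, h4, if_true]
        exact a3 i (by omega)
      · by_cases h4 : i ≤ n
        · have h5 : i = n := by omega
          subst h5
          simp only [h3, if_false, le_refl, if_true, Nat.add_sub_cancel_left]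
          rw [a2, ← b1]
          exact b3 0 (by omega)
        · simp only [h3, h4, if_false]
          have h5 : i + 1 - n = (i - n) + 1 := by omega
          rw [h5]
          exact b3 (i - n) (by omega))
  refine ⟨p, h1 ?_, h2 ?_⟩
  · have h3 := hp2 0 (by omega)
    simp only [Function.iterate_zero, id, Nat.zero_le, if_true, a1] at h3
    exact h3.trans_le (min_le_left _ _)
  · have h3 := hp2 n (by omega)
    simp only [le_refl, if_true, a2] at h3
    exact h3.trans_le (min_le_right _ _)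

/-- The product of a transitive map and a mixing map is transitive. -/
theorem trans_prod {X : Type u} [TopologicalSpace X] [SecondCountableTopology X] {g : X → X}
    (hg : Continuous g) {M : Set X} (hM : g '' M = M) {x : X}
    (hd : M ⊆ closure (range fun n : ℕ => g^[n] x)) {Y : Type v} [MetricSpace Y] [CompactSpace Y]
    [Nonempty Y] {a : Y → Y} (ha : Continuous a) (hs : PerShadow a) (hc : ChainMix a) :
    ∃ y : Y, ∀ z ∈ M, ∀ u : Y, (z, u) ∈ closure (range fun n : ℕ => (g^[n] x, a^[n] y)) := by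
  have hcount := TopologicalSpace.countable_countableBasis X
  have hcount' := TopologicalSpace.countable_countableBasis Y
  have h1 : ∀ᶠ y in residual Y, ∀ U ∈ TopologicalSpace.countableBasis X,
      ∀ Q ∈ TopologicalSpace.countableBasis Y, (U ∩ M).Nonempty → ∃ n, g^[n] x ∈ U ∧ a^[n] y ∈ Q := by
    rw [eventually_countable_ball hcount]
    intro U hU
    rw [eventually_countable_ball hcount']
    intro Q hQ
    by_cases hUM : (U ∩ M).Nonempty
    · have hUo := TopologicalSpace.isOpen_of_mem_countableBasis hU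
      have hQo := TopologicalSpace.isOpen_of_mem_countableBasis hQ
      have hQn := TopologicalSpace.nonempty_of_mem_countableBasis hQ
      have h2 : IsOpen {y | ∃ n, g^[n] x ∈ U ∧ a^[n] y ∈ Q} := by
        have h3 : {y | ∃ n, g^[n] x ∈ U ∧ a^[n] y ∈ Q} =
            ⋃ n ∈ {n : ℕ | g^[n] x ∈ U}, (a^[n]) ⁻¹' Q := by
          ext y
          simp only [mem_iUnion, mem_preimage]
          constructor
          · rintro ⟨n, h4, h5⟩
            exact ⟨n, h4, h5⟩
          · rintro ⟨n, h4, h5⟩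
            exact ⟨n, h4, h5⟩
        rw [h3]
        exact isOpen_biUnion fun n _ => hQo.preimage (ha.iterate n)
      have h3 : Dense {y | ∃ n, g^[n] x ∈ U ∧ a^[n] y ∈ Q} := by
        rw [dense_iff_inter_open]
        intro V hV hVn
        obtain ⟨L, hL⟩ := mix hs hc hV hQo hVn hQn
        obtain ⟨z, hzU, hzM⟩ := hUM
        obtain ⟨n, hn, h4⟩ := late hg hM hd L z hzM U (hUo.mem_nhds hzU)
        obtain ⟨y, hy, h5⟩ := hL n hn
        exact ⟨y, hy, n, h4, h5⟩
      filter_upwards [residual_of_dense_open h2 h3] with y hy _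
      exact hy
    · exact Eventually.of_forall fun y h => absurd h hUM
  obtain ⟨y, hy⟩ := (dense_of_mem_residual h1).nonempty
  refine ⟨y, fun z hz u => ?_⟩
  rw [_root_.mem_closure_iff]
  intro O hO hzu
  obtain ⟨O1, O2, h2, h3, h4, h5, h6⟩ := isOpen_prod_iff.1 hO z u hzu
  obtain ⟨U, hU, hzU, hUO⟩ := (TopologicalSpace.isBasis_countableBasis X).exists_subset_of_mem_open
    h4 h2
  obtain ⟨Q, hQ, huQ, hQO⟩ := (TopologicalSpace.isBasis_countableBasis Y).exists_subset_of_mem_open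
    h5 h3
  obtain ⟨n, h7, h8⟩ := hy U hU Q hQ ⟨z, hzU, hz⟩
  exact ⟨_, h6 ⟨hUO h7, hQO h8⟩, n, rfl⟩

theorem spectral_of_finite {X : Type u} [TopologicalSpace X] [T1Space X] {G : X → X}
    (hG : Continuous G) (hinj : Function.Injective G) (hfin : (Omega G).Finite) : Spectral G := by
  have hmap : ∀ x ∈ Omega G, G x ∈ Omega G := fun x hx => omega_maps hG hx
  have hit : ∀ x ∈ Omega G, Pool.Agent.R552.FB.orb G x ⊆ Omega G := by
    rintro x hx _ ⟨k, rfl⟩
    show G^[k] x ∈ _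
    induction k with
    | zero => exact hx
    | succ k ih => rw [Function.iterate_succ_apply']; exact hmap _ ih
  obtain ⟨m, M, hMinj, hM⟩ := (hfin.image (Pool.Agent.R552.FB.orb G)).fin_param
  have hMi : ∀ i, ∃ x ∈ Omega G, Pool.Agent.R552.FB.orb G x = M i := fun i => by
    have : M i ∈ range M := ⟨i, rfl⟩
    rw [hM] at this
    exact this
  choose c hc hcM using hMi
  have hself : ∀ x : X, x ∈ Pool.Agent.R552.FB.orb G x := fun x => ⟨0, rfl⟩
  refine ⟨m, M, fun i => ?_, fun i => ?_, fun i j hij => ?_, fun i => ?_, fun x hx => ?_⟩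
  · rw [← hcM i]
    exact (hfin.subset (hit _ (hc i))).isClosed
  · rw [← hcM i]
    obtain ⟨q, hq, hq'⟩ := Pool.Agent.R552.FB.per_of_finite hinj hfin hmap (hc i)
    refine Subset.antisymm ?_ ?_
    · rintro _ ⟨_, ⟨k, rfl⟩, rfl⟩
      exact ⟨k + 1, Function.iterate_succ_apply' G k (c i)⟩
    · rintro _ ⟨k, rfl⟩
      cases k with
      | zero =>
        refine ⟨G^[q - 1] (c i), ⟨q - 1, rfl⟩, ?_⟩
        show G (G^[q - 1] (c i)) = c i
        rw [← Function.iterate_succ_apply' G, Nat.succ_eq_add_one, Nat.sub_add_cancel hq, hq']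
      | succ k =>
        exact ⟨G^[k] (c i), ⟨k, rfl⟩, (Function.iterate_succ_apply' G k (c i)).symm⟩
  · rw [← hcM i, ← hcM j]
    rw [Set.disjoint_left]
    intro y hy1 hy2
    obtain ⟨q, hq, hq'⟩ := Pool.Agent.R552.FB.per_of_finite hinj hfin hmap (hc i)
    obtain ⟨q2, hq2, hq2'⟩ := Pool.Agent.R552.FB.per_of_finite hinj hfin hmap (hc j)
    apply hij
    apply hMinj
    rw [← hcM i, ← hcM j, ← Pool.Agent.R552.FB.orb_eq hq hq' hy1, ← Pool.Agent.R552.FB.orb_eq hq2 hq2' hy2]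
  · refine ⟨c i, ?_, ?_⟩
    · rw [← hcM i]; exact hself _
    · rw [← hcM i]; exact subset_closure
  · have : Pool.Agent.R552.FB.orb G x ∈ range M := by
      rw [hM]; exact ⟨x, hx, rfl⟩
    obtain ⟨i, hi⟩ := this
    exact mem_iUnion.2 ⟨i, by rw [hi]; exact hself x⟩

theorem spectral_ext {N : Type u} [TopologicalSpace N] {B : Type v} [TopologicalSpace B]
    [T2Space B] [CompactSpace B] [SecondCountableTopology B]
    {W : Type} [NormedAddCommGroup W] [NormedSpace ℝ W] [FiniteDimensional ℝ W] [Nontrivial W]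
    {Λ : AddSubgroup W} [DiscreteTopology Λ] [IsClosed (Λ : Set W)]
    (hC : ∃ C : ℝ, ∀ z : W, ∃ u ∈ Λ, ‖z - u‖ ≤ C)
    {A : W ≃L[ℝ] W} (hL : IsHypLin A) (hA : ∀ u, u ∈ Λ ↔ A u ∈ Λ) {g : B → B}
    (hgc : Continuous g) {G : N → N}
    (E : (B × (W ⧸ Λ)) ≃ₜ N) (hE : ∀ p : B × (W ⧸ Λ), G (E p) = E (g p.1, bar A hA p.2))
    (hg : Spectral g) : Spectral G := by
  have hcompact : CompactSpace (W ⧸ Λ) := Pool.Agent.W806.SC.comp hC
  obtain ⟨hps, hcm⟩ := t_EX2 W Λ hC A hL hA (bar A hA) (fun z => rfl)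
  obtain ⟨m, M, h1, h2, h3, h4, h5⟩ := hg
  refine ⟨m, fun i => E '' (M i ×ˢ univ), fun i => ?_, fun i => ?_, fun i j hij => ?_, fun i => ?_,
    fun x hx => ?_⟩
  · exact E.isClosedMap _ ((h1 i).prod isClosed_univ)
  · ext x
    constructor
    · rintro ⟨_, ⟨⟨b, u⟩, ⟨hb, -⟩, rfl⟩, rfl⟩
      rw [hE]
      refine ⟨_, ⟨?_, mem_univ _⟩, rfl⟩
      show g b ∈ M i
      rw [← h2 i]
      exact ⟨b, hb, rfl⟩
    · rintro ⟨⟨b, u⟩, ⟨hb, -⟩, rfl⟩
      have hb' : b ∈ g '' M i := by rw [h2 i]; exact hb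
      obtain ⟨b', hb', rfl⟩ := hb'
      refine ⟨E (b', (bar A hA).symm u), ⟨_, ⟨hb', mem_univ _⟩, rfl⟩, ?_⟩
      rw [hE]
      show E (g b', bar A hA ((bar A hA).symm u)) = E (g b', u)
      rw [Homeomorph.apply_symm_apply]
  · rw [Set.disjoint_left]
    rintro _ ⟨⟨b, u⟩, ⟨hb, -⟩, rfl⟩ ⟨⟨b', u'⟩, ⟨hb', -⟩, he⟩
    have h6 := congrArg Prod.fst (E.injective he)
    have h7 : b' = b := h6
    subst h7
    exact Set.disjoint_left.1 (h3 i j hij) hb hb'
  · obtain ⟨x, hx, hd⟩ := h4 i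
    obtain ⟨y, hy⟩ := trans_prod hgc (h2 i) hd (bar A hA).continuous hps hcm
    refine ⟨E (x, y), ⟨_, ⟨hx, mem_univ _⟩, rfl⟩, ?_⟩
    rintro _ ⟨⟨z, u⟩, ⟨hz, -⟩, rfl⟩
    have h6 := hy z hz u
    have h7 : E (z, u) ∈ closure (E '' range fun n : ℕ => (g^[n] x, (bar A hA)^[n] y)) :=
      image_closure_subset_closure_image E.continuous ⟨_, h6, rfl⟩
    refine closure_mono ?_ h7
    rintro _ ⟨_, ⟨n, rfl⟩, rfl⟩
    exact ⟨n, E_iter hE n x y⟩
  · obtain ⟨⟨b, u⟩, rfl⟩ := E.surjective x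
    obtain ⟨i, hi⟩ := mem_iUnion.1 (h5 (omega_base hA E hE hx))
    exact mem_iUnion.2 ⟨i, _, ⟨hi, mem_univ _⟩, rfl⟩

theorem attr_of_spectral {n : ℕ} {N : Type u} [TopologicalSpace N] [T2Space N] [CompactSpace N]
    [ChartedSpace (V n) N] [IsManifold (𝓡 n) ∞ N] {r : ℕ∞} (G : DiffM n N r) (h : Spectral G)
    (_ : MeasurableSpace N) (μ : Measure N) : Pool.Agent.H728R2.FA.FiniteAttractors μ G := by
  obtain ⟨m, M, h1, h2, h3, h4, h5⟩ := h
  have hmet := exists_metric n N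
  exact Pool.Agent.Y318.MN.attr_of_metric μ G.toHomeomorph M h2 h4
    (Pool.Agent.Y318.MN.cover_of_metric G.toHomeomorph M h1 h2 h3
      (fun p => (Pool.Agent.Y318.MN.omegaLim_sub_omega _ _).trans h5))

theorem limit_spectral {d : ℕ} {B : Type v} [TopologicalSpace B] [T2Space B] [CompactSpace B]
    [ChartedSpace (V d) B] [IsManifold (𝓡 d) ∞ B] {r : ℕ∞} (hr : 1 ≤ r) {f : DiffM d B r}
    (hf : IsLimit f) (U : Set (DiffM d B r)) (hU : IsOpen[strongTop d B r] U) (hfU : f ∈ U) :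
    ∃ g ∈ U, Spectral g := by
  obtain ⟨g, hgU, hg | hg⟩ := hf U hU hfU
  · exact ⟨g, hgU, hg⟩
  · obtain ⟨g', h1, h2, -⟩ := Pool.Agent.R552.FB.axA (D := Pool.Agent.R552.FA.Dissipative ⊤)
      (fun _ h => h) hr g (fun U' _ hgU' => ⟨g, hgU', hg⟩) U hU hgU
    exact ⟨g', h1, spectral_of_finite g'.continuous g'.injective h2.1⟩

theorem attr_final {n d k : ℕ} {W : Type} [NormedAddCommGroup W] [NormedSpace ℝ W]
    [FiniteDimensional ℝ W] [Nontrivial W] {Λ : AddSubgroup W} [DiscreteTopology Λ]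
    [IsClosed (Λ : Set W)] {A : W ≃L[ℝ] W} (hA : IsHypAut A Λ) :
    ∃ ε₀ > 0, ∀ (N : Type u) [TopologicalSpace N] [T2Space N] [CompactSpace N]
      [ChartedSpace (V n) N] [IsManifold (𝓡 n) ∞ N]
      (B : Type v) [TopologicalSpace B] [T2Space B] [CompactSpace B]
      [ChartedSpace (V d) B] [IsManifold (𝓡 d) ∞ B]
      (K : Type w) [TopologicalSpace K] [ChartedSpace (V k) K] [IsManifold (𝓡 k) ∞ K]
      (r : ℕ∞) (F : DiffM n N r) (f : DiffM d B r) (Θ : ProdDiff n d k N B K)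
      (φ : B × (W ⧸ Λ) → W), 1 ≤ r → IsExt A Θ F f φ → FibLip ε₀ φ → IsLimit f →
      ∀ U : Set (DiffM n N r), IsOpen[strongTop n N r] U → F ∈ U →
        ∃ G ∈ U, ∃ g : DiffM d B r, IsExt A Θ G g φ ∧ Spectral g ∧ Spectral G ∧
          ∀ (_ : MeasurableSpace N) (μ : Measure N),
            Pool.Agent.H728R2.FA.FiniteAttractors μ G := by
  obtain ⟨ε₀, hε₀, hconj⟩ := lip_conj.{u, v, w} (n := n) (d := d) (k := k) (Λ := Λ) hA.hyp
  refine ⟨ε₀, hε₀, fun N _ _ _ _ _ B _ _ _ _ _ K _ _ _ r F f Θ φ hr ⟨hφ, τ, hτ⟩ hlip hf U hU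
    hFU => ?_⟩
  have hcompact : CompactSpace (W ⧸ Λ) := Pool.Agent.W806.SC.comp hA.lattice
  obtain ⟨U', hU', hfU', hlf⟩ := exists_open Θ F f hU hFU
  obtain ⟨g, hg, hsp⟩ := limit_spectral hr hf U' hU' hfU'
  have h1 := lf_toral hτ g
  obtain ⟨E, -, hE⟩ := hconj N B K r τ Θ (lf Θ F f g) g φ hA.inv hφ hlip h1
  have hsc : SecondCountableTopology B := ChartedSpace.secondCountable_of_sigmaCompact (V d) B
  have h2 : Spectral (lf Θ F f g) :=
    spectral_ext hA.lattice hA.hyp hA.inv g.continuous E hE hsp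
  exact ⟨lf Θ F f g, hlf g hg, g, ⟨hφ, τ, h1⟩, hsp, h2, attr_of_spectral _ h2⟩

end Pool.Agent.R773.TE
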