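import Pool.Agent.R773.TE.Hyp
import Pool.Agent.R773.TE.Defs

/-!
# The base of an `Ω`-stable toral extension
-/

set_option autoImplicit false
set_option linter.unusedSectionVars false

open scoped Manifold ContDiff Topology
open Filter Set Metric

universe u v w

namespace Pool.Agent.R773.TE

open Pool.Agent.H718R2.G Pool.Agent.W564.SC Pool.Agent.TH80.OMS Pool.Agent.Y504.CO
open Pool.Agent.TH382.QC Pool.Agent.R773.FC
open Pool.Agent.H922R3.CL (IsHypLin)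

variable {n d k : ℕ} {N : Type u} [TopologicalSpace N] [T2Space N] [CompactSpace N]
  [ChartedSpace (V n) N] [IsManifold (𝓡 n) ∞ N]
  {B : Type v} [TopologicalSpace B] [T2Space B] [CompactSpace B] [ChartedSpace (V d) B]
  [IsManifold (𝓡 d) ∞ B]
  {K : Type w} [TopologicalSpace K] [ChartedSpace (V k) K] [IsManifold (𝓡 k) ∞ K] {r : ℕ∞}

/-- The lift of a perturbation of the base. -/
noncomputable def lf (Θ : Diffeomorph ((𝓡 d).prod (𝓡 k)) (𝓡 n) (B × K) N ∞) (F : DiffM n N r)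
    (f g : DiffM d B r) : DiffM n N r :=
  F.trans (liftD Θ (f.symm.trans g))

theorem lf_apply (Θ : Diffeomorph ((𝓡 d).prod (𝓡 k)) (𝓡 n) (B × K) N ∞) (F : DiffM n N r)
    (f g : DiffM d B r) (x : N) : lf Θ F f g x = liftD Θ (f.symm.trans g) (F x) := rfl

theorem lift_self (Θ : Diffeomorph ((𝓡 d).prod (𝓡 k)) (𝓡 n) (B × K) N ∞) (f : DiffM d B r)
    (x : N) : liftD Θ (f.symm.trans f) x = x := by
  rw [liftD_apply']
  have h1 : (f.symm.trans f) (Θ.symm x).1 = (Θ.symm x).1 := by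
    show f (f.symm (Θ.symm x).1) = _
    exact f.apply_symm_apply _
  rw [h1]
  exact Θ.apply_symm_apply x

theorem lf_self (Θ : Diffeomorph ((𝓡 d).prod (𝓡 k)) (𝓡 n) (B × K) N ∞) (F : DiffM n N r)
    (f : DiffM d B r) : lf Θ F f f = F := by
  apply Diffeomorph.ext
  intro x
  rw [lf_apply, lift_self]

theorem cv_lf (Θ : Diffeomorph ((𝓡 d).prod (𝓡 k)) (𝓡 n) (B × K) N ∞) (F : DiffM n N r)
    (f : DiffM d B r) {g : ℕ → DiffM d B r} (h : Cv g f) : Cv (fun m => lf Θ F f (g m)) F := by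
  have hcomp := Pool.Agent.W917.SC.comp
  have h1 := Cv.trans hcomp (Cv.const f.symm) h
  have h2 := cv_lift Θ h1
  have h3 := Cv.trans hcomp (Cv.const F) h2
  have h4 : F.trans (liftD Θ (f.symm.trans f)) = F := lf_self Θ F f
  rw [h4] at h3
  exact h3

theorem exists_open (Θ : Diffeomorph ((𝓡 d).prod (𝓡 k)) (𝓡 n) (B × K) N ∞) (F : DiffM n N r)
    (f : DiffM d B r) {U : Set (DiffM n N r)} (hU : IsOpen[strongTop n N r] U) (hF : F ∈ U) :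
    ∃ U' : Set (DiffM d B r), IsOpen[strongTop d B r] U' ∧ f ∈ U' ∧ ∀ g ∈ U', lf Θ F f g ∈ U := by
  by_contra hcon
  push Not at hcon
  obtain ⟨g, hg, hc⟩ := Cv.exists_seq Pool.Agent.W917.SC.comp f (fun g => lf Θ F f g ∉ U) hcon
  obtain ⟨m, hm⟩ := ((cv_lf Θ F f hc).mem hU hF).exists
  exact hg m hm

variable {W : Type} [NormedAddCommGroup W] [NormedSpace ℝ W] {Λ : AddSubgroup W}

theorem lf_toral {A : W ≃L[ℝ] W} {τ : K ≃ₜ W ⧸ Λ}
    {Θ : Diffeomorph ((𝓡 d).prod (𝓡 k)) (𝓡 n) (B × K) N ∞} {F : DiffM n N r}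
    {f : DiffM d B r} {φ : B × (W ⧸ Λ) → W} (h : IsToral A τ Θ F f φ) (g : DiffM d B r) :
    IsToral A τ Θ (lf Θ F f g) g φ := by
  intro b z
  rw [lf_apply, h b z, liftD_apply]
  have h1 : (f.symm.trans g) (f b) = g b := by
    show g (f.symm (f b)) = _
    rw [f.symm_apply_apply]
  rw [h1]

/-- The coordinates on `N`. -/
noncomputable def emb (τ : K ≃ₜ W ⧸ Λ) (Θ : Diffeomorph ((𝓡 d).prod (𝓡 k)) (𝓡 n) (B × K) N ∞) :
    (B × (W ⧸ Λ)) ≃ₜ N :=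
  ((Homeomorph.refl B).prodCongr τ.symm).trans Θ.toHomeomorph

theorem emb_apply (τ : K ≃ₜ W ⧸ Λ) (Θ : Diffeomorph ((𝓡 d).prod (𝓡 k)) (𝓡 n) (B × K) N ∞)
    (b : B) (y : W ⧸ Λ) : emb τ Θ (b, y) = Θ (b, τ.symm y) := rfl

/-- `F` in coordinates. -/
noncomputable def Tm (τ : K ≃ₜ W ⧸ Λ) (Θ : Diffeomorph ((𝓡 d).prod (𝓡 k)) (𝓡 n) (B × K) N ∞)
    (F : DiffM n N r) : (B × (W ⧸ Λ)) ≃ₜ (B × (W ⧸ Λ)) :=
  (emb τ Θ).trans (F.toHomeomorph.trans (emb τ Θ).symm)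

theorem emb_Tm (τ : K ≃ₜ W ⧸ Λ) (Θ : Diffeomorph ((𝓡 d).prod (𝓡 k)) (𝓡 n) (B × K) N ∞)
    (F : DiffM n N r) (p : B × (W ⧸ Λ)) : F (emb τ Θ p) = emb τ Θ (Tm τ Θ F p) := by
  show _ = emb τ Θ ((emb τ Θ).symm (F (emb τ Θ p)))
  rw [Homeomorph.apply_symm_apply]

theorem skew_Tm {A : W ≃L[ℝ] W} {τ : K ≃ₜ W ⧸ Λ}
    {Θ : Diffeomorph ((𝓡 d).prod (𝓡 k)) (𝓡 n) (B × K) N ∞} {F : DiffM n N r}
    {f : B → B} {φ : B × (W ⧸ Λ) → W} (h : IsToral A τ Θ F f φ) :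
    Skew A Λ f φ (Tm τ Θ F) := by
  intro b z
  apply (emb τ Θ).injective
  rw [← emb_Tm]
  exact h b z

variable [FiniteDimensional ℝ W] [DiscreteTopology Λ] [IsClosed (Λ : Set W)]

theorem per_fib [Nontrivial W] (hC : ∃ C : ℝ, ∀ z : W, ∃ u ∈ Λ, ‖z - u‖ ≤ C)
    {A : W ≃L[ℝ] W} (hL : IsHypLin A) {τ : K ≃ₜ W ⧸ Λ}
    {Θ : Diffeomorph ((𝓡 d).prod (𝓡 k)) (𝓡 n) (B × K) N ∞} {F : DiffM n N r}
    {f : DiffM d B r} {φ : B × (W ⧸ Λ) → W} (hφ : Continuous φ) (h : IsToral A τ Θ F f φ)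
    (b : B) (m : ℕ) (hm : 1 ≤ m) (hb : f^[m] b = b) : ∃ y : K, F^[m] (Θ (b, y)) = Θ (b, y) := by
  have hcompact : CompactSpace (W ⧸ Λ) := Pool.Agent.W806.SC.comp hC
  have hmet : TopologicalSpace.MetrizableSpace B := exists_metric d B
  letI : MetricSpace B := TopologicalSpace.metrizableSpaceMetric B
  obtain ⟨ψ, hψc, hψ⟩ := exists_psi hL (Tm τ Θ F) φ hφ
  obtain ⟨C, hC', hl⟩ := exists_lift' hL (Tm τ Θ F).continuous hψc (skew_Tm h) hψ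
  obtain ⟨z, hz, -⟩ := hl b m hm 0 (by
    have h1 : ∀ i : ℕ, A^[i] (0 : W) = 0 := by
      intro i
      induction i with
      | zero => rfl
      | succ i ih => rw [Function.iterate_succ_apply', ih, map_zero]
    rw [h1, sub_zero]
    exact Λ.zero_mem)
  rw [hb] at hz
  refine ⟨τ.symm (QuotientAddGroup.mk z), ?_⟩
  rw [← emb_apply, iter_Θ' (emb_Tm τ Θ F), hz]

end Pool.Agent.R773.TE
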