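import Mathlib
import Pool.Agent.TH80.OMS.SymDefs

/-!
# Periodic points of homeomorphisms of the circle
-/

set_option autoImplicit false
set_option linter.unusedSectionVars false

open Set Filter Topology

universe v

namespace Pool.Agent.R773.TE

open Pool.Agent.TH80.OMS

theorem mono_or_anti {a c : ℝ} {G : ℝ → ℝ} (hc : ContinuousOn G (Ioo a c))
    (hi : InjOn G (Ioo a c)) : StrictMonoOn G (Ioo a c) ∨ StrictAntiOn G (Ioo a c) := by
  by_contra hcon
  push Not at hcon
  obtain ⟨h1, h2⟩ := hcon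
  have e1 : ∃ x ∈ Ioo a c, ∃ y ∈ Ioo a c, x < y ∧ G y ≤ G x := by
    by_contra h
    push Not at h
    exact h1 fun x hx y hy hxy => h x hx y hy hxy
  have e2 : ∃ x ∈ Ioo a c, ∃ y ∈ Ioo a c, x < y ∧ G x ≤ G y := by
    by_contra h
    push Not at h
    exact h2 fun x hx y hy hxy => h x hx y hy hxy
  obtain ⟨x1, hx1, y1, hy1, hxy1, hG1⟩ := e1
  obtain ⟨x2, hx2, y2, hy2, hxy2, hG2⟩ := e2
  set s := min x1 x2 with hs
  set t := max y1 y2 with ht
  have hsub : Icc s t ⊆ Ioo a c := by
    intro z hz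
    exact ⟨(lt_min hx1.1 hx2.1).trans_le hz.1, hz.2.trans_lt (max_lt hy1.2 hy2.2)⟩
  have m1 : x1 ∈ Icc s t := ⟨min_le_left _ _, hxy1.le.trans (le_max_left _ _)⟩
  have m2 : y1 ∈ Icc s t := ⟨(min_le_left _ _).trans hxy1.le, le_max_left _ _⟩
  have m3 : x2 ∈ Icc s t := ⟨min_le_right _ _, hxy2.le.trans (le_max_right _ _)⟩
  have m4 : y2 ∈ Icc s t := ⟨(min_le_right _ _).trans hxy2.le, le_max_right _ _⟩
  have hst : s ≤ t := m1.1.trans m1.2
  rcases ContinuousOn.strictMonoOn_of_injOn_Icc' hst (hc.mono hsub) (hi.mono hsub) with h | h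
  · exact absurd (h m1 m2 hxy1) (not_lt.2 hG1)
  · exact absurd (h m3 m4 hxy2) (not_lt.2 hG2)

theorem fix_of_per {a c : ℝ} {G : ℝ → ℝ} (hm : MapsTo G (Ioo a c) (Ioo a c))
    (hc : ContinuousOn G (Ioo a c)) (hi : InjOn G (Ioo a c)) {t : ℝ} (ht : t ∈ Ioo a c) {q : ℕ}
    (hq : 0 < q) (h : (G^[2])^[q] t = t) : G^[2] t = t := by
  let H : Ioo a c → Ioo a c := fun x => ⟨G^[2] x, by
    rw [Function.iterate_succ_apply', Function.iterate_one]
    exact hm (hm x.2)⟩
  have hmono : StrictMono H := by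
    intro x y hxy
    show G^[2] x < G^[2] y
    show G (G x) < G (G y)
    rcases mono_or_anti hc hi with h1 | h1
    · exact h1 (hm x.2) (hm y.2) (h1 x.2 y.2 hxy)
    · exact h1 (hm y.2) (hm x.2) (h1 x.2 y.2 hxy)
  have hit : ∀ (j : ℕ) (x : Ioo a c), ((H^[j] x : Ioo a c) : ℝ) = (G^[2])^[j] x := by
    intro j
    induction j with
    | zero => intro x; rfl
    | succ j ih =>
      intro x
      rw [Function.iterate_succ_apply', Function.iterate_succ_apply', ← ih]
  have h1 : H^[q] ⟨t, ht⟩ = id^[q] (⟨t, ht⟩ : Ioo a c) := by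
    rw [Function.iterate_id]
    apply Subtype.ext
    rw [hit]
    exact h
  have h2 := ((Function.Commute.id_right (f := H)).iterate_pos_eq_iff_map_eq hmono.monotone
    strictMono_id hq).1 h1
  exact congrArg Subtype.val h2

/-- The periodic points of a homeomorphism of the circle which is not without periodic points are
the fixed points of one of its iterates. -/
theorem per_circle {B : Type v} [TopologicalSpace B] (σ : B ≃ₜ AddCircle (1 : ℝ)) (f : B ≃ₜ B)
    (hfin : ∀ m : ℕ, 1 ≤ m → {b | f^[m] b = b}.Finite) : (Per f).Finite := by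
  rcases (Per f).eq_empty_or_nonempty with h0 | ⟨p, m, hm, hp⟩
  · rw [h0]
    exact finite_empty
  have : Fact ((0 : ℝ) < 1) := ⟨one_pos⟩
  obtain ⟨a, ha⟩ := QuotientAddGroup.mk_surjective (σ p)
  set e := AddCircle.openPartialHomeomorphCoe (1 : ℝ) a with he
  have hsrc : e.source = Ioo a (a + 1) := rfl
  have htgt : e.target = {(a : AddCircle (1 : ℝ))}ᶜ := rfl
  have ha' : σ p = (a : AddCircle (1 : ℝ)) := ha.symm
  -- `g = f ^ m` fixes `p`
  have hgne : ∀ x, x ≠ p → f^[m] x ≠ p := by
    intro x hx hgx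
    apply hx
    have h1 : f^[m] x = f^[m] p := by rw [hgx, hp]
    exact (f.injective.iterate m) h1
  have hmem : ∀ x : B, x ≠ p → σ x ∈ e.target := by
    intro x hx
    rw [htgt]
    intro h1
    apply hx
    apply σ.injective
    rw [ha']
    exact h1
  have hmem' : ∀ t ∈ Ioo a (a + 1), σ.symm (e t) ≠ p := by
    intro t ht h1
    have h2 : e t ∈ e.target := e.map_source (by rw [hsrc]; exact ht)
    rw [htgt] at h2
    apply h2
    have h3 : e t = σ p := by rw [← h1, σ.apply_symm_apply]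
    rw [h3, ha']
    rfl
  let G : ℝ → ℝ := fun t => e.symm (σ (f^[m] (σ.symm (e t))))
  have hGm : MapsTo G (Ioo a (a + 1)) (Ioo a (a + 1)) := by
    intro t ht
    have h1 := e.map_target (hmem _ (hgne _ (hmem' t ht)))
    rw [hsrc] at h1
    exact h1
  have heG : ∀ t ∈ Ioo a (a + 1), σ.symm (e (G t)) = f^[m] (σ.symm (e t)) := by
    intro t ht
    show σ.symm (e (e.symm (σ (f^[m] (σ.symm (e t)))))) = _
    rw [e.right_inv (hmem _ (hgne _ (hmem' t ht))), σ.symm_apply_apply]
  have hGc : ContinuousOn G (Ioo a (a + 1)) := by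
    have h1 : ContinuousOn e (Ioo a (a + 1)) := e.continuousOn
    have h2 : ContinuousOn (fun t => σ (f^[m] (σ.symm (e t)))) (Ioo a (a + 1)) :=
      (σ.continuous.comp ((f.continuous.iterate m).comp σ.symm.continuous)).comp_continuousOn h1
    refine e.continuousOn_symm.comp h2 ?_
    intro t ht
    exact hmem _ (hgne _ (hmem' t ht))
  have hGi : InjOn G (Ioo a (a + 1)) := by
    intro t ht t' ht' h1
    have h2 : σ.symm (e (G t)) = σ.symm (e (G t')) := by rw [h1]
    rw [heG t ht, heG t' ht'] at h2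
    have h3 := σ.symm.injective ((f.injective.iterate m) h2)
    exact e.injOn (by rw [hsrc]; exact ht) (by rw [hsrc]; exact ht') h3
  have hGit : ∀ (j : ℕ), ∀ t ∈ Ioo a (a + 1), G^[j] t ∈ Ioo a (a + 1) ∧
      σ.symm (e (G^[j] t)) = f^[m * j] (σ.symm (e t)) := by
    intro j
    induction j with
    | zero => intro t ht; exact ⟨ht, rfl⟩
    | succ j ih =>
      intro t ht
      obtain ⟨h1, h2⟩ := ih t ht
      rw [Function.iterate_succ_apply']
      refine ⟨hGm h1, ?_⟩
      rw [heG _ h1, h2, ← Function.iterate_add_apply, Nat.mul_succ, Nat.add_comm]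
  refine (hfin (m * 2) (by omega)).subset ?_
  rintro x ⟨q, hq, hx⟩
  by_cases hxp : x = p
  · rw [hxp]
    have h5 : Function.IsPeriodicPt f m p := hp
    exact h5.mul_const 2
  · have hxt := hmem x hxp
    set t := e.symm (σ x) with ht
    have htI : t ∈ Ioo a (a + 1) := by
      have := e.map_target hxt
      rw [hsrc] at this
      exact this
    have hxe : σ.symm (e t) = x := by
      rw [ht, e.right_inv hxt, σ.symm_apply_apply]
    have h1 : (G^[2])^[q] t = t := by
      rw [← Function.iterate_mul]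
      obtain ⟨h2, h3⟩ := hGit (2 * q) t htI
      apply e.injOn (by rw [hsrc]; exact h2) (by rw [hsrc]; exact htI)
      apply σ.symm.injective
      rw [h3, hxe]
      have h5 : Function.IsPeriodicPt f q x := hx
      have h6 := h5.const_mul (m * 2)
      have h7 : m * (2 * q) = m * 2 * q := by ring
      rw [h7]
      exact h6
    have h2 := fix_of_per hGm hGc hGi htI (show 0 < q by omega) h1
    obtain ⟨-, h3⟩ := hGit 2 t htI
    rw [h2, hxe] at h3
    exact h3.symm

end Pool.Agent.R773.TE
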