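import Pool.Agent.R773.TE.Main

/-!
# Short forms
-/

set_option autoImplicit false
set_option linter.unusedSectionVars false

open scoped Manifold ContDiff Topology
open Filter Set Metric

universe u v w

namespace Pool.Agent.R773.TE

open Pool.Agent.H718R2.G Pool.Agent.TH80.OMS Pool.Agent.Y504.CO
open Pool.Agent.H922R3.CL (IsHypLin)

theorem final {n d k : ℕ} {W : Type} [NormedAddCommGroup W] [NormedSpace ℝ W]
    [FiniteDimensional ℝ W] [Nontrivial W] {Λ : AddSubgroup W} [DiscreteTopology Λ]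
    [IsClosed (Λ : Set W)] {A : W ≃L[ℝ] W} (hA : IsHypAut A Λ) :
    ∃ ε₀ > 0, ∀ (N : Type u) [TopologicalSpace N] [T2Space N] [CompactSpace N]
      [ChartedSpace (V n) N] [IsManifold (𝓡 n) ∞ N]
      (B : Type v) [TopologicalSpace B] [T2Space B] [CompactSpace B]
      [ChartedSpace (V d) B] [IsManifold (𝓡 d) ∞ B]
      (K : Type w) [TopologicalSpace K] [ChartedSpace (V k) K] [IsManifold (𝓡 k) ∞ K]
      (r : ℕ∞) (F : DiffM n N r) (f : DiffM d B r) (Θ : ProdDiff n d k N B K)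
      (φ : B × (W ⧸ Λ) → W), 1 ≤ r → OmegaStable n N r F → IsExt A Θ F f φ →
      ∃ U : Set (DiffM d B r), IsOpen[strongTop d B r] U ∧ f ∈ U ∧ (∀ g ∈ U, PerHyp g) ∧
        (Nonempty (B ≃ₜ AddCircle (1 : ℝ)) → ∀ g ∈ U, FinU3 g) ∧
        (FibLip ε₀ φ → LipConcl Θ F f U) := by
  obtain ⟨ε₀, hε₀, h⟩ := main.{u, v, w} (n := n) (d := d) (k := k) hA.lattice hA.hyp hA.inv
  refine ⟨ε₀, hε₀, fun N _ _ _ _ _ B _ _ _ _ _ K _ _ _ r F f Θ φ hr hF ⟨hφ, τ, hτ⟩ => ?_⟩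
  obtain ⟨U, hU, hfU, h1, h2, h3⟩ := h N B K r hr F hF f τ Θ φ hφ hτ
  refine ⟨U, hU, hfU, h1, h2, fun hlip => ?_⟩
  obtain ⟨⟨h4, h5⟩, h6, h7, h8⟩ := h3 hlip
  exact ⟨⟨h4, h5⟩, h6, h7, h8⟩

end Pool.Agent.R773.TE
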