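import Pool.Agent.R773.TE.Tot

/-!
# Fibre maps which are Lipschitz-close to affine maps
-/

set_option autoImplicit false
set_option linter.unusedSectionVars false
set_option linter.style.haveILetI false

open scoped Manifold ContDiff Topology
open Filter Set Metric

universe u v w

namespace Pool.Agent.R773.TE

open Pool.Agent.H718R2.G Pool.Agent.W564.SC Pool.Agent.TH80.OMS Pool.Agent.Y504.CO
open Pool.Agent.TH382.QC Pool.Agent.R773.FC
open Pool.Agent.H922R3.CL (IsHypLin)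

theorem near_zero {W : Type*} [NormedAddCommGroup W] [NormedSpace ℝ W] {L : W ≃L[ℝ] W}
    (hL : IsHypLin L) : ∃ ε₀ > 0, ∀ (X : Type v) (T : X ≃ X) (d : X → W),
      (∀ p, ‖d (T p) - L (d p)‖ ≤ ε₀ * ‖d p‖) → ∀ M : ℝ, (∀ p, ‖d p‖ ≤ M) → ∀ p, d p = 0 := by
  obtain ⟨P, C, μ, hC, hμ, hμ1, hPP, hLP, hb⟩ := hL
  have hμ' : 0 < 1 - μ := by linarith
  refine ⟨(1 - μ) / (4 * C), by positivity, fun X T d hd M₀ hM₀ p₀ => ?_⟩
  set ε := (1 - μ) / (4 * C) with hε
  have hε0 : 0 < ε := by positivity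
  -- the improvement
  have key : ∀ M : ℝ, (∀ p, ‖d p‖ ≤ M) → ∀ p, ‖d p‖ ≤ M / 2 := by
    intro M hM p
    have hM0 : 0 ≤ M := (norm_nonneg _).trans (hM p)
    have he : ∀ q, ‖d (T q) - L (d q)‖ ≤ ε * M := fun q =>
      (hd q).trans (mul_le_mul_of_nonneg_left (hM q) hε0.le)
    have hs : ∀ n : ℕ, ∑ i ∈ Finset.range n, C * μ ^ i * (ε * M) ≤ M / 4 := by
      intro n
      have h1 : ∑ i ∈ Finset.range n, C * μ ^ i * (ε * M) =
          C * (ε * M) * ∑ i ∈ Finset.range n, μ ^ i := by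
        rw [Finset.mul_sum]
        exact Finset.sum_congr rfl fun i _ => by ring
      have h2 : ∑ i ∈ Finset.range n, μ ^ i ≤ (1 - μ)⁻¹ := by
        rw [← tsum_geometric_of_lt_one hμ.le hμ1]
        exact (summable_geometric_of_lt_one hμ.le hμ1).sum_le_tsum _
          (fun i _ => by positivity)
      have h3 : C * (ε * M) * (1 - μ)⁻¹ = M / 4 := by
        rw [hε]
        field_simp
      rw [h1, ← h3]
      exact mul_le_mul_of_nonneg_left h2 (by positivity)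
    have hA : ∀ (n : ℕ) (q : X), ‖P (d (T^[n] q)) - L^[n] (P (d q))‖ ≤
        ∑ i ∈ Finset.range n, C * μ ^ i * (ε * M) := by
      intro n
      induction n with
      | zero => intro q; simp
      | succ n ih =>
        intro q
        have h1 := ih (T q)
        have h2 := (hb n (d (T q) - L (d q))).1
        have h3 : P (d (T^[n + 1] q)) - L^[n + 1] (P (d q)) =
            (P (d (T^[n] (T q))) - L^[n] (P (d (T q)))) + L^[n] (P (d (T q) - L (d q))) := by
          rw [map_sub, iter_sub, ← hLP, Function.iterate_succ_apply, Function.iterate_succ_apply]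
          abel
        rw [h3, Finset.sum_range_succ]
        refine (norm_add_le _ _).trans (add_le_add h1 (h2.trans ?_))
        exact mul_le_mul_of_nonneg_left (he q) (by positivity)
    have hB : ∀ (n : ℕ) (q : X), ‖L.symm^[n] (d (T^[n] q) - P (d (T^[n] q))) -
        (d q - P (d q))‖ ≤ ∑ i ∈ Finset.range n, C * μ ^ i * (ε * M) := by
      intro n
      induction n with
      | zero => intro q; simp
      | succ n ih =>
        intro q
        have h1 := ih q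
        set e := d (T (T^[n] q)) - L (d (T^[n] q)) with he'
        have h2 := (hb (n + 1) e).2
        have h3 : L.symm^[n + 1] (d (T^[n + 1] q) - P (d (T^[n + 1] q))) - (d q - P (d q)) =
            (L.symm^[n] (d (T^[n] q) - P (d (T^[n] q))) - (d q - P (d q))) +
              L.symm^[n + 1] (e - P e) := by
          have h4 : L.symm^[n] (d (T^[n] q) - P (d (T^[n] q))) =
              L.symm^[n + 1] (L (d (T^[n] q) - P (d (T^[n] q)))) := by
            rw [Function.iterate_succ_apply, L.symm_apply_apply]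
          have h5 : e - P e = (d (T (T^[n] q)) - P (d (T (T^[n] q)))) -
              L (d (T^[n] q) - P (d (T^[n] q))) := by
            rw [he', map_sub P, map_sub L, hLP]
            abel
          rw [h4, Function.iterate_succ_apply' (⇑T) n q, h5, iter_sub L.symm (n + 1)
            (d (T (T^[n] q)) - P (d (T (T^[n] q)))) (L (d (T^[n] q) - P (d (T^[n] q))))]
          abel
        rw [h3, Finset.sum_range_succ]
        refine (norm_add_le _ _).trans (add_le_add h1 (h2.trans ?_))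
        have h5 : μ ^ (n + 1) ≤ μ ^ n := pow_le_pow_of_le_one hμ.le hμ1.le (Nat.le_succ n)
        have h6 : ‖e‖ ≤ ε * M := he _
        have h7 : C * μ ^ (n + 1) ≤ C * μ ^ n := mul_le_mul_of_nonneg_left h5 hC.le
        exact mul_le_mul h7 h6 (norm_nonneg _) (by positivity)
    have hfin : ∀ n : ℕ, ‖d p‖ ≤ M / 2 + 2 * (C * μ ^ n * M) := by
      intro n
      have h1 : T^[n] (T.symm^[n] p) = p := (T.right_inv.iterate n) p
      have h2 := hA n (T.symm^[n] p)
      rw [h1] at h2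
      have h3 := (hb n (d (T.symm^[n] p))).1
      have h4 := hB n p
      have h5 := (hb n (d (T^[n] p))).2
      have h6 : C * μ ^ n * ‖d (T.symm^[n] p)‖ ≤ C * μ ^ n * M :=
        mul_le_mul_of_nonneg_left (hM _) (by positivity)
      have h7 : C * μ ^ n * ‖d (T^[n] p)‖ ≤ C * μ ^ n * M :=
        mul_le_mul_of_nonneg_left (hM _) (by positivity)
      have h8 : ‖P (d p)‖ ≤ ‖P (d p) - L^[n] (P (d (T.symm^[n] p)))‖ +
          ‖L^[n] (P (d (T.symm^[n] p)))‖ := by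
        have := norm_add_le (P (d p) - L^[n] (P (d (T.symm^[n] p)))) (L^[n] (P (d (T.symm^[n] p))))
        rwa [sub_add_cancel] at this
      have h9 : ‖d p - P (d p)‖ ≤ ‖L.symm^[n] (d (T^[n] p) - P (d (T^[n] p))) - (d p - P (d p))‖ +
          ‖L.symm^[n] (d (T^[n] p) - P (d (T^[n] p)))‖ := by
        have := norm_sub_le (L.symm^[n] (d (T^[n] p) - P (d (T^[n] p))))
          (L.symm^[n] (d (T^[n] p) - P (d (T^[n] p))) - (d p - P (d p)))
        rw [sub_sub_cancel] at this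
        linarith
      have h10 : ‖d p‖ ≤ ‖P (d p)‖ + ‖d p - P (d p)‖ := by
        have := norm_add_le (P (d p)) (d p - P (d p))
        rwa [add_sub_cancel] at this
      have h11 := hs n
      linarith
    have ht : Tendsto (fun n : ℕ => M / 2 + 2 * (C * μ ^ n * M)) atTop
        (𝓝 (M / 2 + 2 * (C * 0 * M))) :=
      tendsto_const_nhds.add ((((tendsto_pow_atTop_nhds_zero_of_lt_one hμ.le hμ1).const_mul
        C).mul_const M).const_mul 2)
    rw [mul_zero, zero_mul, mul_zero, add_zero] at ht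
    exact ge_of_tendsto' ht hfin
  have hall : ∀ n : ℕ, ∀ p, ‖d p‖ ≤ M₀ * (1 / 2) ^ n := by
    intro n
    induction n with
    | zero => intro p; simpa using hM₀ p
    | succ n ih =>
      intro p
      have := key _ ih p
      rw [pow_succ]
      linarith
  have ht : Tendsto (fun n : ℕ => M₀ * (1 / 2 : ℝ) ^ n) atTop (𝓝 (M₀ * 0)) :=
    (tendsto_pow_atTop_nhds_zero_of_lt_one (by norm_num) (by norm_num)).const_mul M₀
  rw [mul_zero] at ht
  have h1 : ‖d p₀‖ ≤ 0 := ge_of_tendsto' ht (fun n => hall n p₀)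
  exact norm_le_zero_iff.1 h1

section

variable {B : Type v} [TopologicalSpace B] [T2Space B] [CompactSpace B]
  {W : Type} [NormedAddCommGroup W] [NormedSpace ℝ W] {Λ : AddSubgroup W}

theorem lift_inj {A : W ≃L[ℝ] W} {f : B → B} (hf : Function.Injective f)
    {φ : B × (W ⧸ Λ) → W} {T : (B × (W ⧸ Λ)) ≃ₜ (B × (W ⧸ Λ))} (hT : Skew A Λ f φ T) (b b' : B)
    (z z' : W) (h1 : f b = f b') (h2 : A z + φ (b, QuotientAddGroup.mk z) =
      A z' + φ (b', QuotientAddGroup.mk z')) : b = b' ∧ z = z' := by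
  have hb := hf h1
  subst hb
  have h3 : T (b, QuotientAddGroup.mk z) = T (b, QuotientAddGroup.mk z') := by
    rw [hT, hT, h2]
  have h4 := congrArg Prod.snd (T.injective h3)
  have h5 : (QuotientAddGroup.mk z : W ⧸ Λ) = QuotientAddGroup.mk z' := h4
  rw [h5] at h2
  exact ⟨rfl, A.injective (add_right_cancel h2)⟩

theorem lift_surj {A : W ≃L[ℝ] W} (hA : ∀ u, u ∈ Λ ↔ A u ∈ Λ) {f : B → B}
    (hf : Function.Injective f)
    {φ : B × (W ⧸ Λ) → W} {T : (B × (W ⧸ Λ)) ≃ₜ (B × (W ⧸ Λ))} (hT : Skew A Λ f φ T) (b : B)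
    (w : W) : ∃ z : W, A z + φ (b, QuotientAddGroup.mk z) = w := by
  obtain ⟨⟨b', y⟩, hy⟩ := T.surjective (f b, QuotientAddGroup.mk w)
  obtain ⟨z, rfl⟩ := QuotientAddGroup.mk_surjective y
  rw [hT] at hy
  have hb : b' = b := hf (Prod.mk.inj hy).1
  subst hb
  have h1 := (Prod.mk.inj hy).2
  have h2 : A z + φ (b', QuotientAddGroup.mk z) - w ∈ Λ := by
    rw [← QuotientAddGroup.eq_zero_iff, QuotientAddGroup.mk_sub, h1, sub_self]
  set l := A z + φ (b', QuotientAddGroup.mk z) - w with hl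
  have h3 : A.symm l ∈ Λ := (hA _).2 (by rw [A.apply_symm_apply]; exact h2)
  refine ⟨z - A.symm l, ?_⟩
  have h4 : (QuotientAddGroup.mk (z - A.symm l) : W ⧸ Λ) = QuotientAddGroup.mk z := by
    rw [QuotientAddGroup.mk_sub, (QuotientAddGroup.eq_zero_iff _).2 h3, sub_zero]
  rw [h4, map_sub, A.apply_symm_apply, hl]
  abel

variable [FiniteDimensional ℝ W] [DiscreteTopology Λ] [IsClosed (Λ : Set W)]

/-- The semiconjugacy is injective on the fibres. -/
theorem semi_inj {A : W ≃L[ℝ] W} (hL : IsHypLin A) : ∃ ε₀ > 0, ∀ (B : Type v)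
    [TopologicalSpace B] [T2Space B] [CompactSpace B] [CompactSpace (W ⧸ Λ)]
    (f : B ≃ₜ B) (φ ψ : B × (W ⧸ Λ) → W) (T : (B × (W ⧸ Λ)) ≃ₜ (B × (W ⧸ Λ))),
    (∀ u, u ∈ Λ ↔ A u ∈ Λ) → Skew A Λ f φ T → FibLip ε₀ φ → Continuous ψ →
    (∀ p, ψ (T p) + φ p = A (ψ p)) → ∀ (b : B) (z z' : W),
    z + ψ (b, QuotientAddGroup.mk z) = z' + ψ (b, QuotientAddGroup.mk z') → z = z' := by
  obtain ⟨ε₀, hε₀, hnear⟩ := near_zero.{v} hL
  refine ⟨ε₀, hε₀, fun B _ _ _ _ f φ ψ T hA hT hlip hψc hψ b z z' hzz => ?_⟩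
  let X := {q : B × (W × W) // q.2.1 + ψ (q.1, QuotientAddGroup.mk q.2.1) =
    q.2.2 + ψ (q.1, QuotientAddGroup.mk q.2.2)}
  have hψ' : ∀ (b : B) (z : W), ψ (f b, QuotientAddGroup.mk
      (A z + φ (b, QuotientAddGroup.mk z))) + φ (b, QuotientAddGroup.mk z) =
      A (ψ (b, QuotientAddGroup.mk z)) := by
    intro b z
    have := hψ (b, QuotientAddGroup.mk z)
    rwa [hT] at this
  have hkey : ∀ (b : B) (z : W), A z + φ (b, QuotientAddGroup.mk z) + ψ (f b, QuotientAddGroup.mk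
      (A z + φ (b, QuotientAddGroup.mk z))) = A (z + ψ (b, QuotientAddGroup.mk z)) := by
    intro b z
    rw [map_add, ← hψ' b z]
    abel
  let T₂ : X → X := fun q => ⟨(f q.1.1, A q.1.2.1 + φ (q.1.1, QuotientAddGroup.mk q.1.2.1),
    A q.1.2.2 + φ (q.1.1, QuotientAddGroup.mk q.1.2.2)), by
      show A q.1.2.1 + φ (q.1.1, QuotientAddGroup.mk q.1.2.1) + ψ (f q.1.1, QuotientAddGroup.mk
        (A q.1.2.1 + φ (q.1.1, QuotientAddGroup.mk q.1.2.1))) =
        A q.1.2.2 + φ (q.1.1, QuotientAddGroup.mk q.1.2.2) + ψ (f q.1.1, QuotientAddGroup.mk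
        (A q.1.2.2 + φ (q.1.1, QuotientAddGroup.mk q.1.2.2)))
      rw [hkey, hkey, q.2]⟩
  have hinj : Function.Injective T₂ := by
    intro q q' hqq
    have h0 := congrArg Subtype.val hqq
    have h1 : f q.1.1 = f q'.1.1 := congrArg Prod.fst h0
    have h2 : A q.1.2.1 + φ (q.1.1, QuotientAddGroup.mk q.1.2.1) =
        A q'.1.2.1 + φ (q'.1.1, QuotientAddGroup.mk q'.1.2.1) :=
      congrArg Prod.fst (congrArg Prod.snd h0)
    have h3 : A q.1.2.2 + φ (q.1.1, QuotientAddGroup.mk q.1.2.2) =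
        A q'.1.2.2 + φ (q'.1.1, QuotientAddGroup.mk q'.1.2.2) :=
      congrArg Prod.snd (congrArg Prod.snd h0)
    obtain ⟨h4, h5⟩ := lift_inj f.injective hT _ _ _ _ h1 h2
    obtain ⟨-, h6⟩ := lift_inj f.injective hT _ _ _ _ h1 h3
    exact Subtype.ext (Prod.ext h4 (Prod.ext h5 h6))
  have hsurj : Function.Surjective T₂ := by
    rintro ⟨⟨β, w, w'⟩, hw⟩
    obtain ⟨z, hz⟩ := lift_surj hA f.injective hT (f.symm β) w
    obtain ⟨z', hz'⟩ := lift_surj hA f.injective hT (f.symm β) w'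
    have h1 := hkey (f.symm β) z
    have h2 := hkey (f.symm β) z'
    rw [hz, f.apply_symm_apply] at h1
    rw [hz', f.apply_symm_apply] at h2
    have h3 : z + ψ (f.symm β, QuotientAddGroup.mk z) =
        z' + ψ (f.symm β, QuotientAddGroup.mk z') := by
      apply A.injective
      rw [← h1, ← h2]
      exact hw
    refine ⟨⟨(f.symm β, z, z'), h3⟩, Subtype.ext ?_⟩
    show (f (f.symm β), A z + φ (f.symm β, QuotientAddGroup.mk z),
      A z' + φ (f.symm β, QuotientAddGroup.mk z')) = (β, w, w')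
    rw [f.apply_symm_apply, hz, hz']
  obtain ⟨M, hM0, hM⟩ := exists_bd hψc
  have h1 := hnear X (Equiv.ofBijective T₂ ⟨hinj, hsurj⟩) (fun q => q.1.2.1 - q.1.2.2) (by
    intro q
    show ‖(A q.1.2.1 + φ (q.1.1, QuotientAddGroup.mk q.1.2.1)) -
      (A q.1.2.2 + φ (q.1.1, QuotientAddGroup.mk q.1.2.2)) - A (q.1.2.1 - q.1.2.2)‖ ≤
      ε₀ * ‖q.1.2.1 - q.1.2.2‖
    have h2 : (A q.1.2.1 + φ (q.1.1, QuotientAddGroup.mk q.1.2.1)) -
      (A q.1.2.2 + φ (q.1.1, QuotientAddGroup.mk q.1.2.2)) - A (q.1.2.1 - q.1.2.2) =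
      φ (q.1.1, QuotientAddGroup.mk q.1.2.1) - φ (q.1.1, QuotientAddGroup.mk q.1.2.2) := by
      rw [map_sub]
      abel
    rw [h2]
    exact hlip _ _ _) (M + M) (by
    intro q
    have h2 : q.1.2.1 - q.1.2.2 = ψ (q.1.1, QuotientAddGroup.mk q.1.2.2) -
        ψ (q.1.1, QuotientAddGroup.mk q.1.2.1) := by
      have h3 := q.2
      rw [sub_eq_sub_iff_add_eq_add, h3]
      abel
    rw [h2]
    exact (norm_sub_le _ _).trans (add_le_add (hM _) (hM _)))
    (⟨(b, z, z'), hzz⟩ : X)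
  exact sub_eq_zero.1 h1

theorem lip_conj' {A : W ≃L[ℝ] W} (hL : IsHypLin A) : ∃ ε₀ > 0, ∀ (B : Type v)
    [TopologicalSpace B] [T2Space B] [CompactSpace B] [CompactSpace (W ⧸ Λ)]
    (f : B ≃ₜ B) (φ : B × (W ⧸ Λ) → W) (T : (B × (W ⧸ Λ)) ≃ₜ (B × (W ⧸ Λ)))
    (hA : ∀ u, u ∈ Λ ↔ A u ∈ Λ), Continuous φ → Skew A Λ f φ T → FibLip ε₀ φ →
    ∃ S : (B × (W ⧸ Λ)) ≃ₜ (B × (W ⧸ Λ)), (∀ p, (S p).1 = p.1) ∧
      ∀ p, S (T p) = (f (S p).1, bar A hA (S p).2) := by
  obtain ⟨ε₀, hε₀, h⟩ := semi_inj.{v} (Λ := Λ) hL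
  refine ⟨ε₀, hε₀, fun B _ _ _ _ f φ T hA hφ hT hlip => ?_⟩
  obtain ⟨ψ, hψc, hψ⟩ := exists_psi hL T φ hφ
  have hinj := h B f φ ψ T hA hT hlip hψc hψ
  let s : B × (W ⧸ Λ) → B × (W ⧸ Λ) := fun p => (p.1, p.2 + QuotientAddGroup.mk (ψ p))
  have hsc : Continuous s := continuous_fst.prodMk
    (continuous_snd.add (QuotientAddGroup.continuous_mk.comp hψc))
  have hsi : Function.Injective s := by
    rintro ⟨b, y⟩ ⟨b', y'⟩ hs
    have hb : b = b' := (Prod.mk.inj hs).1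
    subst hb
    obtain ⟨z, rfl⟩ := QuotientAddGroup.mk_surjective y
    obtain ⟨z', rfl⟩ := QuotientAddGroup.mk_surjective y'
    have h1 : (QuotientAddGroup.mk (z + ψ (b, QuotientAddGroup.mk z)) : W ⧸ Λ) =
        QuotientAddGroup.mk (z' + ψ (b, QuotientAddGroup.mk z')) := (Prod.mk.inj hs).2
    set l := z + ψ (b, QuotientAddGroup.mk z) - (z' + ψ (b, QuotientAddGroup.mk z')) with hl
    have h2 : l ∈ Λ := by
      rw [← QuotientAddGroup.eq_zero_iff, hl, QuotientAddGroup.mk_sub, h1, sub_self]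
    have h3 : (QuotientAddGroup.mk (z' + l) : W ⧸ Λ) = QuotientAddGroup.mk z' := by
      rw [QuotientAddGroup.mk_add, (QuotientAddGroup.eq_zero_iff _).2 h2, add_zero]
    have h4 : z = z' + l := by
      apply hinj b
      rw [h3, hl]
      abel
    rw [h4, h3]
  have hss : Function.Surjective s := by
    rintro ⟨b, u⟩
    obtain ⟨w, rfl⟩ := QuotientAddGroup.mk_surjective u
    obtain ⟨M, -, hM⟩ := exists_bd hψc
    obtain ⟨z, hz⟩ := Pool.Agent.Helper133.Brouwer.brouwer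
      (fun z : W => w - ψ (b, QuotientAddGroup.mk z))
      (continuous_const.sub (hψc.comp ((Continuous.prodMk_right b).comp
        QuotientAddGroup.continuous_mk))) (‖w‖ + M)
      (fun z => (norm_sub_le _ _).trans (add_le_add le_rfl (hM _)))
    refine ⟨(b, QuotientAddGroup.mk z), ?_⟩
    show (b, (QuotientAddGroup.mk (z + ψ (b, QuotientAddGroup.mk z)) : W ⧸ Λ)) = _
    have h1 : z + ψ (b, QuotientAddGroup.mk z) = w := by
      have h2 : w - ψ (b, QuotientAddGroup.mk z) = z := hz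
      rw [← h2]
      rw [h2, ← h2]
      rw [h2]
      exact (sub_eq_iff_eq_add.1 h2).symm
    rw [h1]
  let S : (B × (W ⧸ Λ)) ≃ₜ (B × (W ⧸ Λ)) :=
    Continuous.homeoOfEquivCompactToT2 (f := Equiv.ofBijective s ⟨hsi, hss⟩) hsc
  refine ⟨S, fun p => rfl, fun p => ?_⟩
  obtain ⟨b, y⟩ := p
  obtain ⟨z, rfl⟩ := QuotientAddGroup.mk_surjective y
  show s (T (b, QuotientAddGroup.mk z)) = (f b, bar A hA (QuotientAddGroup.mk (z +
    ψ (b, QuotientAddGroup.mk z))))
  have h1 := hψ (b, QuotientAddGroup.mk z)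
  rw [bar_mk, map_add, ← h1, hT]
  show (f b, (QuotientAddGroup.mk (A z + φ (b, QuotientAddGroup.mk z) + ψ (f b,
    QuotientAddGroup.mk (A z + φ (b, QuotientAddGroup.mk z)))) : W ⧸ Λ)) = _
  rw [Prod.mk.injEq]
  refine ⟨rfl, ?_⟩
  congr 1
  abel

end

/-- Coordinates in which the lifts are products. -/
theorem lip_conj {n d k : ℕ} {W : Type} [NormedAddCommGroup W] [NormedSpace ℝ W]
    {Λ : AddSubgroup W} [FiniteDimensional ℝ W] [DiscreteTopology Λ] [IsClosed (Λ : Set W)]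
    {A : W ≃L[ℝ] W} (hL : IsHypLin A) : ∃ ε₀ > 0, ∀ (N : Type u) [TopologicalSpace N]
    [T2Space N] [CompactSpace N] [ChartedSpace (V n) N] [IsManifold (𝓡 n) ∞ N]
    (B : Type v) [TopologicalSpace B] [T2Space B] [CompactSpace B]
    [ChartedSpace (V d) B] [IsManifold (𝓡 d) ∞ B]
    (K : Type w) [TopologicalSpace K] [ChartedSpace (V k) K] [IsManifold (𝓡 k) ∞ K] (r : ℕ∞)
    [CompactSpace (W ⧸ Λ)] (τ : K ≃ₜ W ⧸ Λ)
    (Θ : Diffeomorph ((𝓡 d).prod (𝓡 k)) (𝓡 n) (B × K) N ∞) (F : DiffM n N r)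
    (f : DiffM d B r) (φ : B × (W ⧸ Λ) → W) (hA : ∀ u, u ∈ Λ ↔ A u ∈ Λ),
    Continuous φ → FibLip ε₀ φ → IsToral A τ Θ F f φ →
    ∃ E : (B × (W ⧸ Λ)) ≃ₜ N, (∀ p, (Θ.symm (E p)).1 = p.1) ∧
      ∀ p : B × (W ⧸ Λ), F (E p) = E (f p.1, bar A hA p.2) := by
  obtain ⟨ε₀, hε₀, h⟩ := lip_conj'.{v} (Λ := Λ) hL
  refine ⟨ε₀, hε₀, fun N _ _ _ _ _ B _ _ _ _ _ K _ _ _ r _ τ Θ F f φ hA
    hφ hlip hF => ?_⟩
  obtain ⟨S, hS1, hS2⟩ := h B f.toHomeomorph φ (Tm τ Θ F) hA hφ (skew_Tm hF) hlip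
  refine ⟨S.symm.trans (emb τ Θ), fun p => ?_, fun p => ?_⟩
  · show (Θ.symm (emb τ Θ (S.symm p))).1 = p.1
    have h1 : (S.symm p).1 = p.1 := by
      rw [← hS1, S.apply_symm_apply]
    have h2 : Θ.symm (emb τ Θ (S.symm p)) = ((S.symm p).1, τ.symm (S.symm p).2) := by
      show Θ.symm (Θ ((S.symm p).1, τ.symm (S.symm p).2)) = _
      rw [Θ.symm_apply_apply]
    rw [h2, ← h1]
  · show F (emb τ Θ (S.symm p)) = emb τ Θ (S.symm (f p.1, bar A hA p.2))
    rw [emb_Tm]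
    congr 1
    rw [S.eq_symm_apply, hS2, S.apply_symm_apply]
    rfl

end Pool.Agent.R773.TE
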