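import Pool.Agent.R773.TE.Lip
import Pool.Agent.R773.TE.Circ

/-!
# Final forms
-/

set_option autoImplicit false
set_option linter.unusedSectionVars false
set_option linter.style.haveILetI false

open scoped Manifold ContDiff Topology
open Filter Set Metric

universe u v w

namespace Pool.Agent.R773.TE

open Pool.Agent.H718R2.G Pool.Agent.W564.SC Pool.Agent.TH80.OMS Pool.Agent.Y504.CO
open Pool.Agent.TH382.QC Pool.Agent.R773.FC
open Pool.Agent.H922R3.CL (IsHypLin)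

theorem dense_fib {N : Type u} [TopologicalSpace N]
    {B : Type v} [TopologicalSpace B] [T2Space B] [CompactSpace B]
    {W : Type} [NormedAddCommGroup W] [NormedSpace ℝ W] {Λ : AddSubgroup W}
    [FiniteDimensional ℝ W] [DiscreteTopology Λ] [IsClosed (Λ : Set W)] [Nontrivial W]
    (hC : ∃ C : ℝ, ∀ z : W, ∃ u ∈ Λ, ‖z - u‖ ≤ C)
    {A : W ≃L[ℝ] W} (hL : IsHypLin A) (hA : ∀ u, u ∈ Λ ↔ A u ∈ Λ) {f : B → B} {F : N → N}
    (E : (B × (W ⧸ Λ)) ≃ₜ N) (hE : ∀ p : B × (W ⧸ Λ), F (E p) = E (f p.1, bar A hA p.2))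
    (hd : Omega f ⊆ closure (Per f)) {b : B} (hb : b ∈ Omega f) (u : W ⧸ Λ) :
    E (b, u) ∈ closure (Per F) := by
  have hcompact : CompactSpace (W ⧸ Λ) := Pool.Agent.W806.SC.comp hC
  have hnt : Nontrivial (W ⧸ Λ) := nontriv
  obtain ⟨hps, hcm⟩ := t_EX2 W Λ hC A hL hA (bar A hA) (fun z => rfl)
  have h1 : ∀ b' ∈ Per f, E (b', u) ∈ closure (Per F) := by
    rintro b' ⟨q, hq, hqb⟩
    rw [_root_.mem_closure_iff]
    intro O hO hbO
    have h2 : (fun v => E (b', v)) ⁻¹' O ∈ 𝓝 u :=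
      (hO.preimage (E.continuous.comp (Continuous.prodMk_right b'))).mem_nhds hbO
    obtain ⟨η, hη, hηO⟩ := Metric.mem_nhds_iff.1 h2
    obtain ⟨ρ₀, R, hρ₀, hfl⟩ := Pool.Agent.W816.SC.flex (W ⧸ Λ) (bar A hA) hps hcm u η hη
    obtain ⟨p', hp1, hp2, -⟩ := hfl (q * (2 * R + 1)) (by nlinarith)
    refine ⟨E (b', p'), hηO hp1, q * (2 * R + 1), by nlinarith, ?_⟩
    have h3 : f^[q * (2 * R + 1)] b' = b' := by
      have h5 : Function.IsPeriodicPt f q b' := hqb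
      exact h5.mul_const (2 * R + 1)
    rw [E_iter hE, h3, hp2]
  have h4 : IsClosed {b' : B | E (b', u) ∈ closure (Per F)} :=
    isClosed_closure.preimage (E.continuous.comp (Continuous.prodMk_left u))
  exact (closure_minimal h1 h4) (hd hb)

theorem rec_countable_of_finite {X : Type v} [TopologicalSpace X] [T2Space X] {f : X → X}
    (h : Omega f ⊆ closure (Per f)) (hfin : (Per f).Finite) : (Rec f \ Per f).Countable := by
  have h1 : Rec f \ Per f = ∅ := by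
    rw [Set.sdiff_eq_empty]
    intro x hx
    have h2 := h (rec_sub_omega hx)
    rwa [hfin.isClosed.closure_eq] at h2
  rw [h1]
  exact countable_empty

variable {n d k : ℕ} {W : Type} [NormedAddCommGroup W] [NormedSpace ℝ W]
  [FiniteDimensional ℝ W] [Nontrivial W]
  {Λ : AddSubgroup W} [DiscreteTopology Λ] [IsClosed (Λ : Set W)]

theorem main (hΛ : ∃ C : ℝ, ∀ z : W, ∃ u ∈ Λ, ‖z - u‖ ≤ C)
    {A : W ≃L[ℝ] W} (hL : IsHypLin A) (hA : ∀ u, u ∈ Λ ↔ A u ∈ Λ) :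
    ∃ ε₀ > 0, ∀ (N : Type u) [TopologicalSpace N] [T2Space N] [CompactSpace N]
      [ChartedSpace (V n) N] [IsManifold (𝓡 n) ∞ N]
      (B : Type v) [TopologicalSpace B] [T2Space B] [CompactSpace B]
      [ChartedSpace (V d) B] [IsManifold (𝓡 d) ∞ B]
      (K : Type w) [TopologicalSpace K] [ChartedSpace (V k) K] [IsManifold (𝓡 k) ∞ K]
      (r : ℕ∞) (_ : 1 ≤ r) (F : DiffM n N r) (_ : OmegaStable n N r F) (f : DiffM d B r)
      (τ : K ≃ₜ W ⧸ Λ) (Θ : Diffeomorph ((𝓡 d).prod (𝓡 k)) (𝓡 n) (B × K) N ∞)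
      (φ : B × (W ⧸ Λ) → W) (_ : Continuous φ) (_ : IsToral A τ Θ F f φ),
      ∃ U : Set (DiffM d B r), IsOpen[strongTop d B r] U ∧ f ∈ U ∧
        (∀ g ∈ U, Omega g = closure (Per g) ∧ (∀ b ∈ Per g, IsHyperbolicPer d g b) ∧
          ∀ m : ℕ, 1 ≤ m → {b | g^[m] b = b}.Finite) ∧
        (Nonempty (B ≃ₜ AddCircle (1 : ℝ)) → ∀ g ∈ U,
          FiniteNoCycle g ∧ ∀ b ∈ Omega g, IsHyperbolicPer d g b) ∧
        (FibLip ε₀ φ →
          (Omega F = closure (Per F) ∧ Omega F = {x | (Θ.symm x).1 ∈ Omega f}) ∧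
          (∀ g ∈ U, ∀ m : ℕ, 1 ≤ m → {b | g^[m] b = b}.ncard = {b | f^[m] b = b}.ncard) ∧
          (IsTotallyDisconnected (Omega f) → ∀ g ∈ U, OmegaConj f g) ∧
          ((Rec f \ Per f).Countable → ∀ g ∈ U,
            FiniteNoCycle g ∧ ∀ b ∈ Omega g, IsHyperbolicPer d g b)) := by
  obtain ⟨ε₀, hε₀, hconj⟩ := lip_conj.{u, v, w} (n := n) (d := d) (k := k) (Λ := Λ) hL
  refine ⟨ε₀, hε₀, fun N _ _ _ _ _ B _ _ _ _ _ K _ _ _ r hr F hF f τ Θ φ hφ h => ?_⟩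
  have hcompact : CompactSpace (W ⧸ Λ) := Pool.Agent.W806.SC.comp hΛ
  obtain ⟨U, hU, hfU, h1⟩ := one hΛ hr hL hA hφ h hF
  have hrob : (∀ g ∈ U, (Rec g \ Per g).Countable) → ∀ g ∈ U,
      FiniteNoCycle g ∧ ∀ b ∈ Omega g, IsHyperbolicPer d g b := fun hR g hg =>
    Gen.robust hr U hU hR hg (h1 g hg).2.2.1
  refine ⟨U, hU, hfU, fun g hg => (h1 g hg).2, ?_, fun hlip => ?_⟩
  · rintro ⟨σ⟩
    refine hrob fun g hg => rec_countable_of_finite (h1 g hg).2.1.le ?_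
    exact per_circle σ g.toHomeomorph (h1 g hg).2.2.2
  · have hE : ∀ g : DiffM d B r, ∃ E : (B × (W ⧸ Λ)) ≃ₜ N, (∀ p, (Θ.symm (E p)).1 = p.1) ∧
        ∀ p : B × (W ⧸ Λ), lf Θ F f g (E p) = E (g p.1, bar A hA p.2) := fun g =>
      hconj N B K r τ Θ (lf Θ F f g) g φ hA hφ hlip (lf_toral h g)
    obtain ⟨E, hE1, hE2⟩ := hconj N B K r τ Θ F f φ hA hφ hlip h
    have hdf : Omega f ⊆ closure (Per f) := (h1 f hfU).2.1.le
    refine ⟨⟨?_, ?_⟩, fun g hg m hm => ?_, fun ht g hg => ?_, fun hR => hrob fun g hg => ?_⟩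
    · refine Subset.antisymm ?_ (closure_minimal ?_ (Cnt.omega_closed F))
      · intro x hx
        obtain ⟨⟨b, y⟩, rfl⟩ := E.surjective x
        exact dense_fib hΛ hL hA E hE2 hdf (omega_base hA E hE2 hx) y
      · rintro x ⟨m, hm, hx⟩
        exact per_mem_omega hm hx
    · ext x
      obtain ⟨⟨b, y⟩, rfl⟩ := E.surjective x
      show E (b, y) ∈ Omega F ↔ (Θ.symm (E (b, y))).1 ∈ Omega f
      rw [hE1]
      exact ⟨fun hx => omega_base hA E hE2 hx, fun hb => omega_fib hΛ hL hA E hE2 hdf hb y⟩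
    · obtain ⟨E', -, hE'⟩ := hE g
      obtain ⟨U₁, hU₁, hFU₁, hfin⟩ := finite_per hr hF
      obtain ⟨U₂, hU₂, hFU₂, hfin₂⟩ := finite_per hr (h1 g hg).1.2
      exact (ncard_eq hA F.continuous (lf Θ F f g).continuous E E' hE2 hE' (h1 g hg).1.1 hm
        (hfin F hFU₁ m hm) (hfin₂ _ hFU₂ m hm)).symm
    · obtain ⟨E', -, hE'⟩ := hE g
      exact conj_of_totDisc k hΛ hL hA τ F.continuous g.continuous E E' hE2 hE' (h1 g hg).1.1
        hdf (h1 g hg).2.1.le ht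
    · obtain ⟨E', -, hE'⟩ := hE g
      have hmet : TopologicalSpace.MetrizableSpace B := exists_metric d B
      have h2 : Rec g ⊆ Per g := rec_of_rec k hΛ hL hA τ F.continuous
        (lf Θ F f g).continuous E E' hE2 hE' (h1 g hg).1.1 (h1 f hfU).2.2.2
        (Gen.rec_per f hR)
      rw [Set.sdiff_eq_empty.2 h2]
      exact countable_empty

end Pool.Agent.R773.TE
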