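import Pool.Agent.R773.TE.Base

/-!
# Closing and hyperbolicity in the base
-/

set_option autoImplicit false
set_option linter.unusedSectionVars false

open scoped Manifold ContDiff Topology
open Filter Set Metric

universe u v w

namespace Pool.Agent.R773.TE

open Pool.Agent.H718R2.G Pool.Agent.W564.SC Pool.Agent.TH80.OMS Pool.Agent.Y504.CO
open Pool.Agent.TH382.QC Pool.Agent.R773.FC
open Pool.Agent.H922R3.CL (IsHypLin)

theorem omegaConj_symm {X : Type u} [TopologicalSpace X] {F G : X → X} (hF : Continuous F)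
    (h : OmegaConj F G) : OmegaConj G F := by
  obtain ⟨h, hh⟩ := h
  exact ⟨h.symm, conj_symm hF h hh⟩

theorem omegaConj_trans {X : Type u} [TopologicalSpace X] {F G H : X → X}
    (h : OmegaConj F G) (h' : OmegaConj G H) : OmegaConj F H := by
  obtain ⟨h, hh⟩ := h
  obtain ⟨h', hh'⟩ := h'
  refine ⟨h.trans h', fun x y hxy => ?_⟩
  exact hh' (h x) (h y) (hh x y hxy)

theorem stable_of_mem {n : ℕ} {N : Type u} [TopologicalSpace N] [ChartedSpace (V n) N] {r : ℕ∞}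
    {F : DiffM n N r} {U : Set (DiffM n N r)} (hU : IsOpen[strongTop n N r] U)
    (h : ∀ G ∈ U, OmegaConj F G) {G : DiffM n N r} (hG : G ∈ U) : OmegaStable n N r G :=
  ⟨U, hU, hG, fun H hH => omegaConj_trans (omegaConj_symm F.continuous (h G hG)) (h H hH)⟩

variable {n d k : ℕ} {N : Type u} [TopologicalSpace N] [T2Space N] [CompactSpace N]
  [ChartedSpace (V n) N] [IsManifold (𝓡 n) ∞ N]
  {B : Type v} [TopologicalSpace B] [T2Space B] [CompactSpace B] [ChartedSpace (V d) B]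
  [IsManifold (𝓡 d) ∞ B]
  {K : Type w} [TopologicalSpace K] [ChartedSpace (V k) K] [IsManifold (𝓡 k) ∞ K] {r : ℕ∞}
  {W : Type} [NormedAddCommGroup W] [NormedSpace ℝ W] {Λ : AddSubgroup W}
  [FiniteDimensional ℝ W] [DiscreteTopology Λ] [IsClosed (Λ : Set W)]

theorem nonWand_of_omega {X : Type u} [TopologicalSpace X] {f : X → X} {b : X}
    (hb : b ∈ Omega f) : NonWand f b := by
  intro O hO
  obtain ⟨O', h1, h2, h3⟩ := mem_nhds_iff.1 hO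
  obtain ⟨m, hm, y, hy, hmy⟩ := hb O' h2 h3
  exact ⟨m, hm, y, h1 hy, h1 hmy⟩

theorem base_per_dense [Nontrivial W] (hC : ∃ C : ℝ, ∀ z : W, ∃ u ∈ Λ, ‖z - u‖ ≤ C)
    (hr : 1 ≤ r) {A : W ≃L[ℝ] W} (hL : IsHypLin A) (hA : ∀ u, u ∈ Λ ↔ A u ∈ Λ) {τ : K ≃ₜ W ⧸ Λ}
    {Θ : Diffeomorph ((𝓡 d).prod (𝓡 k)) (𝓡 n) (B × K) N ∞} {F : DiffM n N r}
    {f : DiffM d B r} {φ : B × (W ⧸ Λ) → W} (hφ : Continuous φ) (h : IsToral A τ Θ F f φ)
    (hF : OmegaStable n N r F) : Omega f ⊆ closure (Per f) := by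
  intro b hb
  have hmet : TopologicalSpace.MetrizableSpace B := exists_metric d B
  letI : MetricSpace B := TopologicalSpace.metrizableSpaceMetric B
  obtain ⟨ψ, -, -, -, h4⟩ := closing hC hr F hL hA f.toHomeomorph hφ (Tm τ Θ F) (skew_Tm h)
    (emb τ Θ).isEmbedding (emb_Tm τ Θ F)
  obtain ⟨y, -, -, hl⟩ := h4 b (nonWand_of_omega hb) 0
  have h5 := per_of_lclosable hr hF hl
  exact base_closure F f.toHomeomorph (skew_Tm h) (emb τ Θ).isEmbedding (emb_Tm τ Θ F)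
    (emb τ Θ).surjective h5

theorem base_hyp' [Nontrivial W] (hC : ∃ C : ℝ, ∀ z : W, ∃ u ∈ Λ, ‖z - u‖ ≤ C)
    (hr : 1 ≤ r) {A : W ≃L[ℝ] W} (hL : IsHypLin A) {τ : K ≃ₜ W ⧸ Λ}
    {Θ : Diffeomorph ((𝓡 d).prod (𝓡 k)) (𝓡 n) (B × K) N ∞} {F : DiffM n N r}
    {f : DiffM d B r} {φ : B × (W ⧸ Λ) → W} (hφ : Continuous φ) (h : IsToral A τ Θ F f φ)
    (hF : OmegaStable n N r F) : ∀ b ∈ Per f, IsHyperbolicPer d f b := by
  have hfst : ∀ q : B × K, (Θ.symm (F (Θ q))).1 = f q.1 := by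
    rintro ⟨b, y⟩
    obtain ⟨z, hz⟩ := QuotientAddGroup.mk_surjective (τ y)
    have h1 := h b z
    rw [hz, τ.symm_apply_apply] at h1
    rw [h1, Θ.symm_apply_apply]
  exact base_hyp hr Θ hfst (fun b m hm hb => per_fib hC hL hφ h b m hm hb)
    (Gen.stable_hyp hr hF)

theorem base_finite [Nontrivial W] (hC : ∃ C : ℝ, ∀ z : W, ∃ u ∈ Λ, ‖z - u‖ ≤ C)
    (hr : 1 ≤ r) {A : W ≃L[ℝ] W} (hL : IsHypLin A) {τ : K ≃ₜ W ⧸ Λ}
    {Θ : Diffeomorph ((𝓡 d).prod (𝓡 k)) (𝓡 n) (B × K) N ∞} {F : DiffM n N r}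
    {f : DiffM d B r} {φ : B × (W ⧸ Λ) → W} (hφ : Continuous φ) (h : IsToral A τ Θ F f φ)
    (hF : OmegaStable n N r F) (m : ℕ) (hm : 1 ≤ m) : {b | f^[m] b = b}.Finite := by
  obtain ⟨U, hU, hFU, hfin⟩ := finite_per hr hF
  have h1 := hfin F hFU m hm
  refine ((h1.image (fun x => (Θ.symm x).1))).subset ?_
  intro b hb
  obtain ⟨y, hy⟩ := per_fib hC hL hφ h b m hm hb
  exact ⟨Θ (b, y), hy, by simp only [Θ.symm_apply_apply]⟩

/-- The statement (1). -/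
theorem one [Nontrivial W] (hC : ∃ C : ℝ, ∀ z : W, ∃ u ∈ Λ, ‖z - u‖ ≤ C)
    (hr : 1 ≤ r) {A : W ≃L[ℝ] W} (hL : IsHypLin A) (hA : ∀ u, u ∈ Λ ↔ A u ∈ Λ) {τ : K ≃ₜ W ⧸ Λ}
    {Θ : Diffeomorph ((𝓡 d).prod (𝓡 k)) (𝓡 n) (B × K) N ∞} {F : DiffM n N r}
    {f : DiffM d B r} {φ : B × (W ⧸ Λ) → W} (hφ : Continuous φ) (h : IsToral A τ Θ F f φ)
    (hF : OmegaStable n N r F) :
    ∃ U : Set (DiffM d B r), IsOpen[strongTop d B r] U ∧ f ∈ U ∧ ∀ g ∈ U,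
      (OmegaConj F (lf Θ F f g) ∧ OmegaStable n N r (lf Θ F f g)) ∧
      Omega g = closure (Per g) ∧ (∀ b ∈ Per g, IsHyperbolicPer d g b) ∧
      ∀ m : ℕ, 1 ≤ m → {b | g^[m] b = b}.Finite := by
  obtain ⟨U, hU, hFU, hconj⟩ := hF
  obtain ⟨U', hU', hfU', hlf⟩ := exists_open Θ F f hU hFU
  refine ⟨U', hU', hfU', fun g hg => ?_⟩
  have h1 : OmegaStable n N r (lf Θ F f g) := stable_of_mem hU hconj (hlf g hg)
  have h2 := lf_toral h g
  refine ⟨⟨hconj _ (hlf g hg), h1⟩, Subset.antisymm (base_per_dense hC hr hL hA hφ h2 h1) ?_,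
    base_hyp' hC hr hL hφ h2 h1, fun m hm => base_finite hC hr hL hφ h2 h1 m hm⟩
  refine closure_minimal ?_ (Cnt.omega_closed g)
  rintro b ⟨m, hm, hb⟩
  exact per_mem_omega hm hb

end Pool.Agent.R773.TE
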