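import Pool.Agent.R773.TE.One
import Pool.Agent.TH553.K289.J918

/-!
# Fibrewise affine toral extensions: recurrent points and periodic points of the base
-/

set_option autoImplicit false
set_option linter.unusedSectionVars false
set_option linter.style.haveILetI false

open scoped Manifold ContDiff Topology
open Filter Set Metric

universe u v w

namespace Pool.Agent.R773.TE

open Pool.Agent.H718R2.G Pool.Agent.W564.SC Pool.Agent.TH80.OMS Pool.Agent.Y504.CO
open Pool.Agent.TH382.QC Pool.Agent.R773.FC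
open Pool.Agent.H922R3.CL (IsHypLin)

section shear

variable {B : Type v} [TopologicalSpace B] {W : Type} [NormedAddCommGroup W] [NormedSpace ℝ W]
  {Λ : AddSubgroup W}

/-- `(b, y) ↦ (b, y - ρ b)` -/
def shear (ρ : B → W) (hρ : Continuous ρ) : (B × (W ⧸ Λ)) ≃ₜ (B × (W ⧸ Λ)) where
  toFun p := (p.1, p.2 - QuotientAddGroup.mk (ρ p.1))
  invFun p := (p.1, p.2 + QuotientAddGroup.mk (ρ p.1))
  left_inv p := by simp
  right_inv p := by simp
  continuous_toFun := continuous_fst.prodMk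
    (continuous_snd.sub (QuotientAddGroup.continuous_mk.comp (hρ.comp continuous_fst)))
  continuous_invFun := continuous_fst.prodMk
    (continuous_snd.add (QuotientAddGroup.continuous_mk.comp (hρ.comp continuous_fst)))

theorem shear_apply (ρ : B → W) (hρ : Continuous ρ) (b : B) (y : W ⧸ Λ) :
    shear ρ hρ (b, y) = (b, y - QuotientAddGroup.mk (ρ b)) := rfl

end shear

/-- Iteration in coordinates. -/
theorem E_iter {N B Q : Type*} {F : N → N} {f : B → B} {a : Q → Q} {E : B × Q → N}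
    (hE : ∀ p : B × Q, F (E p) = E (f p.1, a p.2)) (m : ℕ) (b : B) (u : Q) :
    F^[m] (E (b, u)) = E (f^[m] b, a^[m] u) := by
  induction m with
  | zero => rfl
  | succ m ih =>
    rw [Function.iterate_succ_apply', ih, hE, Function.iterate_succ_apply',
      Function.iterate_succ_apply']

/-- Recurrent points are mapped to recurrent points by conjugacies of the nonwandering sets. -/
theorem rec_pt {N : Type u} [TopologicalSpace N] {F G : N → N} (hF : Continuous F)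
    (hG : Continuous G) (h : Omega F ≃ₜ Omega G)
    (hh : ∀ x y : Omega F, F x = y → G (h x) = h y) {y : N} (hy : y ∈ Rec G)
    (hyo : y ∈ Omega G) : (h.symm ⟨y, hyo⟩ : N) ∈ Rec F := by
  have hsym := conj_symm hF h hh
  intro W hW
  have hc : Tendsto (fun z : Omega G => (h.symm z : N)) (𝓝 ⟨y, hyo⟩)
      (𝓝 (h.symm ⟨y, hyo⟩ : N)) :=
    (continuous_subtype_val.comp h.symm.continuous).tendsto _
  have h1 := hc hW
  rw [mem_map, nhds_subtype_eq_comap, mem_comap] at h1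
  obtain ⟨O, hO, hOW⟩ := h1
  obtain ⟨k, hk, hkO⟩ := hy O hO
  have hko : G^[k] y ∈ Omega G := by
    have : ∀ i : ℕ, G^[i] y ∈ Omega G := by
      intro i
      induction i with
      | zero => exact hyo
      | succ i ih => rw [Function.iterate_succ_apply']; exact omega_maps hG ih
    exact this k
  refine ⟨k, hk, ?_⟩
  have h2 := conj_iter hG h.symm hsym k ⟨y, hyo⟩ ⟨G^[k] y, hko⟩ rfl
  rw [h2]
  exact hOW (show (⟨G^[k] y, hko⟩ : Omega G) ∈ Subtype.val ⁻¹' O from hkO)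

/-- A nonperiodic recurrent point returns at large times. -/
theorem rec_late {X : Type u} [TopologicalSpace X] [T1Space X] {f : X → X} {b : X}
    (hb : b ∈ Rec f) (hp : b ∉ Per f) (M : ℕ) {O : Set X} (hO : O ∈ 𝓝 b) :
    ∃ m, M ≤ m ∧ 1 ≤ m ∧ f^[m] b ∈ O := by
  have h1 : (⋂ i ∈ Finset.Ico 1 M, ({f^[i] b}ᶜ : Set X)) ∈ 𝓝 b := by
    rw [Filter.biInter_finset_mem]
    intro i hi
    rw [Finset.mem_Ico] at hi
    refine isOpen_compl_singleton.mem_nhds ?_
    intro h2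
    exact hp ⟨i, hi.1, (mem_singleton_iff.1 h2).symm⟩
  obtain ⟨m, hm, hmO⟩ := hb _ (inter_mem hO h1)
  refine ⟨m, ?_, hm, hmO.1⟩
  by_contra hlt
  push Not at hlt
  have h3 := mem_iInter₂.1 hmO.2 m (by rw [Finset.mem_Ico]; omega)
  exact h3 rfl

theorem rec_of_rec (k : ℕ) {N : Type u} [TopologicalSpace N]
    {B : Type v} [TopologicalSpace B] [TopologicalSpace.MetrizableSpace B]
    {K : Type w} [TopologicalSpace K] [ChartedSpace (V k) K]
    {W : Type} [NormedAddCommGroup W] [NormedSpace ℝ W] {Λ : AddSubgroup W}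
    [FiniteDimensional ℝ W] [DiscreteTopology Λ] [IsClosed (Λ : Set W)] [Nontrivial W] (hC : ∃ C : ℝ, ∀ z : W, ∃ u ∈ Λ, ‖z - u‖ ≤ C)
    {A : W ≃L[ℝ] W} (hL : IsHypLin A) (hA : ∀ u, u ∈ Λ ↔ A u ∈ Λ) (τ : K ≃ₜ W ⧸ Λ)
    {f g : B → B} {F G : N → N} (hF : Continuous F) (hG : Continuous G)
    (E E' : (B × (W ⧸ Λ)) ≃ₜ N) (hE : ∀ p : B × (W ⧸ Λ), F (E p) = E (f p.1, bar A hA p.2))
    (hE' : ∀ p : B × (W ⧸ Λ), G (E' p) = E' (g p.1, bar A hA p.2)) (hconj : OmegaConj F G)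
    (hfin : ∀ m : ℕ, 1 ≤ m → {b | f^[m] b = b}.Finite) (hR : Rec f ⊆ Per f) :
    Rec g ⊆ Per g := by
  intro b hb
  by_contra hp
  have hcompact : CompactSpace (W ⧸ Λ) := Pool.Agent.W806.SC.comp hC
  have hnt : Nontrivial (W ⧸ Λ) := nontriv
  letI : MetricSpace B := TopologicalSpace.metrizableSpaceMetric B
  obtain ⟨hps, hcm⟩ := t_EX2 W Λ hC A hL hA (bar A hA) (fun z => rfl)
  have hflex : ∀ (u : W ⧸ Λ) (η : ℝ), 0 < η → ∃ M : ℕ, ∀ m, M ≤ m → ∃ p' : W ⧸ Λ,
      dist p' u < η ∧ (bar A hA)^[m] p' = p' := by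
    intro u η hη
    obtain ⟨ρ₀, R, hρ₀, hfl⟩ := Pool.Agent.W816.SC.flex (W ⧸ Λ) (bar A hA) hps hcm u η hη
    refine ⟨2 * R, fun m hm => ?_⟩
    obtain ⟨p', h1, h2, -⟩ := hfl m hm
    exact ⟨p', h1, h2⟩
  -- the sets of return
  let RR : ℕ → Set (W ⧸ Λ) := fun j => {u | ∃ m : ℕ, 1 ≤ m ∧ dist (g^[m] b) b < 1 / ((j : ℝ) + 1) ∧
    dist ((bar A hA)^[m] u) u < 1 / ((j : ℝ) + 1)}
  have hRo : ∀ j, IsOpen (RR j) := by
    intro j
    have h1 : RR j = ⋃ m : ℕ, {u | (1 ≤ m ∧ dist (g^[m] b) b < 1 / ((j : ℝ) + 1)) ∧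
        dist ((bar A hA)^[m] u) u < 1 / ((j : ℝ) + 1)} := by
      ext u
      simp only [RR, mem_iUnion, mem_ofPred_eq, and_assoc]
    rw [h1]
    refine isOpen_iUnion fun m => ?_
    by_cases h2 : 1 ≤ m ∧ dist (g^[m] b) b < 1 / ((j : ℝ) + 1)
    · simp only [h2, true_and]
      exact isOpen_lt ((((bar A hA).continuous.iterate m)).dist continuous_id) continuous_const
    · simp only [h2, false_and]
      exact isOpen_empty
  have hRd : ∀ j, Dense (RR j) := by
    intro j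
    rw [Metric.dense_iff]
    intro u η hη
    obtain ⟨M, hM⟩ := hflex u η hη
    obtain ⟨m, hm1, hm2, hm3⟩ := rec_late hb hp M
      (Metric.ball_mem_nhds b (show (0 : ℝ) < 1 / ((j : ℝ) + 1) by positivity))
    obtain ⟨p', hp1, hp2⟩ := hM m hm1
    refine ⟨p', hp1, m, hm2, hm3, ?_⟩
    rw [hp2, dist_self]
    positivity
  have hRrec : ∀ u, (∀ j, u ∈ RR j) → E' (b, u) ∈ Rec G := by
    intro u hu O hO
    have h1 : (fun p => E' p) ⁻¹' O ∈ 𝓝 (b, u) := E'.continuous.continuousAt hO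
    obtain ⟨ε, hε, hεO⟩ := Metric.mem_nhds_iff.1 h1
    obtain ⟨j, hj⟩ := exists_nat_one_div_lt hε
    obtain ⟨m, hm, h2, h3⟩ := hu j
    refine ⟨m, hm, ?_⟩
    rw [E_iter hE']
    refine hεO ?_
    rw [Metric.mem_ball, Prod.dist_eq]
    exact max_lt (h2.trans hj) (h3.trans hj)
  have hRdense : Dense (⋂ j, RR j) := dense_iInter_of_isOpen hRo hRd
  have hω : ∀ u, E' (b, u) ∈ Omega G := by
    intro u
    have h1 : IsClosed {u : W ⧸ Λ | E' (b, u) ∈ Omega G} :=
      (Cnt.omega_closed G).preimage (E'.continuous.comp (Continuous.prodMk_right b))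
    have h2 : (⋂ j, RR j) ⊆ {u : W ⧸ Λ | E' (b, u) ∈ Omega G} := by
      intro u hu
      exact rec_sub_omega (hRrec u (mem_iInter.1 hu))
    have h3 : u ∈ closure (⋂ j, RR j) := hRdense u
    exact (closure_minimal h2 h1) h3
  obtain ⟨h, hh⟩ := hconj
  -- the map `λ`
  let ll : (W ⧸ Λ) → B × (W ⧸ Λ) := fun u => E.symm (h.symm ⟨E' (b, u), hω u⟩ : N)
  have hlc : Continuous ll := by
    refine E.symm.continuous.comp (continuous_subtype_val.comp (h.symm.continuous.comp ?_))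
    exact (E'.continuous.comp (Continuous.prodMk_right b)).subtype_mk _
  have hli : Function.Injective ll := by
    intro u u' huu
    have h1 := h.symm.injective (Subtype.val_injective (E.symm.injective huu))
    have h2 := congrArg Subtype.val h1
    have h3 := E'.injective h2
    exact congrArg Prod.snd h3
  have hElam : ∀ u, E (ll u) = (h.symm ⟨E' (b, u), hω u⟩ : N) := fun u => E.apply_symm_apply _
  have hper : ∀ u, (∀ j, u ∈ RR j) → (ll u).1 ∈ Per f := by
    intro u hu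
    apply hR
    have h1 := rec_pt hF hG h hh (hRrec u hu) (hω u)
    rw [← hElam] at h1
    intro O hO
    have h2 : (fun x => (E.symm x).1) ⁻¹' O ∈ 𝓝 (E (ll u)) := by
      refine (continuous_fst.comp E.symm.continuous).continuousAt ?_
      show O ∈ 𝓝 (E.symm (E (ll u))).1
      rw [E.symm_apply_apply]
      exact hO
    obtain ⟨m, hm, h3⟩ := h1 _ h2
    refine ⟨m, hm, ?_⟩
    have h4 : F^[m] (E (ll u)) = E (f^[m] (ll u).1, (bar A hA)^[m] (ll u).2) :=
      E_iter hE m (ll u).1 (ll u).2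
    rw [h4] at h3
    have h5 : (E.symm (E (f^[m] (ll u).1, (bar A hA)^[m] (ll u).2))).1 ∈ O := h3
    rwa [E.symm_apply_apply] at h5
  have hcount : (Per f).Countable := by
    have h1 : Per f ⊆ ⋃ m : ℕ, {b | f^[m + 1] b = b} := by
      rintro x ⟨m, hm, hx⟩
      refine mem_iUnion.2 ⟨m - 1, ?_⟩
      rw [mem_ofPred_eq, Nat.sub_add_cancel hm]
      exact hx
    exact (countable_iUnion fun m => (hfin (m + 1) (by omega)).countable).mono h1
  -- Baire
  obtain ⟨p, hpf, u₀, hu₀⟩ : ∃ p ∈ Per f, (interior {u | (ll u).1 = p}).Nonempty := by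
    by_contra hcon
    push Not at hcon
    have h1 : ∀ᶠ u in residual (W ⧸ Λ), ∀ j, u ∈ RR j := by
      rw [eventually_countable_forall]
      intro j
      exact residual_of_dense_open (hRo j) (hRd j)
    have h2 : ∀ᶠ u in residual (W ⧸ Λ), ∀ p ∈ Per f, u ∈ ({u | (ll u).1 = p}ᶜ : Set (W ⧸ Λ)) := by
      rw [eventually_countable_ball hcount]
      intro p hpf
      have hcl : IsClosed {u | (ll u).1 = p} :=
        isClosed_eq (continuous_fst.comp hlc) continuous_const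
      refine residual_of_dense_open hcl.isOpen_compl ?_
      exact interior_eq_empty_iff_dense_compl.1 (hcon p hpf)
    obtain ⟨u, h3, h4⟩ := (dense_of_mem_residual (h1.and h2)).nonempty
    exact h4 _ (hper u h3) rfl
  -- invariance of domain
  set O := interior {u | (ll u).1 = p} with hO
  have hOo : IsOpen O := isOpen_interior
  have hOp : ∀ u ∈ O, (ll u).1 = p := fun u hu =>
    (interior_subset : interior {u | (ll u).1 = p} ⊆ {u | (ll u).1 = p}) hu
  let κ : K → K := fun x => τ.symm (ll (τ x)).2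
  have hκ : Continuous κ := τ.symm.continuous.comp (continuous_snd.comp (hlc.comp τ.continuous))
  have hU : τ ⁻¹' O ∈ 𝓝 (τ.symm u₀) := by
    refine (hOo.preimage τ.continuous).mem_nhds ?_
    show τ (τ.symm u₀) ∈ O
    rw [τ.apply_symm_apply]
    exact hu₀
  have hκi : InjOn κ (τ ⁻¹' O) := by
    intro x hx x' hx' hxx
    have h1 : (ll (τ x)).2 = (ll (τ x')).2 := τ.symm.injective hxx
    have h2 : (ll (τ x)).1 = (ll (τ x')).1 := (hOp _ hx).trans (hOp _ hx').symm
    exact τ.injective (hli (Prod.ext h2 h1))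
  have hiod := Pool.Agent.TH553.K289.image_nhds (E := V k) (E' := V k) le_rfl hκ hU hκi hU
  have hQ : {v | τ.symm v ∈ κ '' (τ ⁻¹' O)} ∈ 𝓝 (ll u₀).2 := by
    have h1 : κ (τ.symm u₀) = τ.symm (ll u₀).2 := by
      show τ.symm (ll (τ (τ.symm u₀))).2 = _
      rw [τ.apply_symm_apply]
    rw [h1] at hiod
    exact τ.symm.continuous.continuousAt hiod
  obtain ⟨η, hη, hηQ⟩ := Metric.mem_nhds_iff.1 hQ
  obtain ⟨M, hM⟩ := hflex (ll u₀).2 η hη
  obtain ⟨q, hq, hqp⟩ := hpf
  obtain ⟨v, hv1, hv2⟩ := hM (q * (M + 1)) (by nlinarith)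
  obtain ⟨x, hx, hxv⟩ := hηQ (show v ∈ ball (ll u₀).2 η from hv1)
  have h1 : (ll (τ x)).2 = v := τ.symm.injective hxv
  have h2 : (ll (τ x)).1 = p := hOp _ hx
  have h3 : ll (τ x) = (p, v) := Prod.ext h2 h1
  have h4 : f^[q * (M + 1)] p = p := by
    have h5 : Function.IsPeriodicPt f q p := hqp
    exact h5.mul_const (M + 1)
  have h5 : F^[q * (M + 1)] (E (ll (τ x))) = E (ll (τ x)) := by
    rw [h3, E_iter hE, h4, hv2]
  rw [hElam] at h5
  have h6 := conj_iter hF h hh (q * (M + 1)) (h.symm ⟨E' (b, τ x), hω (τ x)⟩)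
    (h.symm ⟨E' (b, τ x), hω (τ x)⟩) h5
  rw [h.apply_symm_apply] at h6
  have h7 : G^[q * (M + 1)] (E' (b, τ x)) = E' (b, τ x) := h6
  rw [E_iter hE'] at h7
  have h8 := congrArg Prod.fst (E'.injective h7)
  exact hp ⟨q * (M + 1), by nlinarith, h8⟩

variable {n d k : ℕ} {N : Type u} [TopologicalSpace N] [T2Space N] [CompactSpace N]
  [ChartedSpace (V n) N] [IsManifold (𝓡 n) ∞ N]
  {B : Type v} [TopologicalSpace B] [T2Space B] [CompactSpace B] [ChartedSpace (V d) B]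
  [IsManifold (𝓡 d) ∞ B]
  {K : Type w} [TopologicalSpace K] [ChartedSpace (V k) K] [IsManifold (𝓡 k) ∞ K] {r : ℕ∞}
  {W : Type} [NormedAddCommGroup W] [NormedSpace ℝ W] {Λ : AddSubgroup W}
  [FiniteDimensional ℝ W] [DiscreteTopology Λ] [IsClosed (Λ : Set W)]

theorem aff_conj {A : W ≃L[ℝ] W} (hL : IsHypLin A) (hA : ∀ u, u ∈ Λ ↔ A u ∈ Λ) {τ : K ≃ₜ W ⧸ Λ}
    {Θ : Diffeomorph ((𝓡 d).prod (𝓡 k)) (𝓡 n) (B × K) N ∞} {F : DiffM n N r}
    {f : DiffM d B r} {c : B → W} (hc : Continuous c)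
    (h : IsToral A τ Θ F f (fun p : B × (W ⧸ Λ) => c p.1)) :
    ∃ E : (B × (W ⧸ Λ)) ≃ₜ N, (∀ p, (Θ.symm (E p)).1 = p.1) ∧
      ∀ p : B × (W ⧸ Λ), F (E p) = E (f p.1, bar A hA p.2) := by
  obtain ⟨ρ, hρc, hρ⟩ := exists_psi hL f.toHomeomorph c hc
  refine ⟨(shear ρ hρc).trans (emb τ Θ), fun p => ?_, ?_⟩
  · obtain ⟨b, y⟩ := p
    show (Θ.symm (emb τ Θ (shear ρ hρc (b, y)))).1 = b
    rw [shear_apply, emb_apply, Θ.symm_apply_apply]
  · rintro ⟨b, y⟩
    obtain ⟨z, rfl⟩ := QuotientAddGroup.mk_surjective y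
    show F (emb τ Θ (shear ρ hρc (b, QuotientAddGroup.mk z))) =
      emb τ Θ (shear ρ hρc (f b, bar A hA (QuotientAddGroup.mk z)))
    rw [shear_apply, shear_apply, bar_mk, ← QuotientAddGroup.mk_sub, ← QuotientAddGroup.mk_sub,
      emb_apply, emb_apply, h b (z - ρ b)]
    have h1 : A (z - ρ b) + c b = A z - ρ (f b) := by
      have h2 : ρ (f b) + c b = A (ρ b) := hρ b
      rw [map_sub, ← h2]
      abel
    show Θ (f b, τ.symm (QuotientAddGroup.mk (A (z - ρ b) + c b))) = _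
    rw [h1]

end Pool.Agent.R773.TE
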