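import Pool.Agent.R773.TE.Rec

/-!
# Totally disconnected nonwandering sets of the base; counting periodic points
-/

set_option autoImplicit false
set_option linter.unusedSectionVars false
set_option linter.style.haveILetI false

open scoped Manifold ContDiff Topology
open Filter Set Metric

universe u v w

namespace Pool.Agent.R773.TE

open Pool.Agent.H718R2.G Pool.Agent.W564.SC Pool.Agent.TH80.OMS Pool.Agent.Y504.CO
open Pool.Agent.TH382.QC Pool.Agent.R773.FC
open Pool.Agent.H922R3.CL (IsHypLin)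

section

variable {N : Type u} [TopologicalSpace N] {B : Type v} [TopologicalSpace B]
  {W : Type} [NormedAddCommGroup W] [NormedSpace ℝ W] {Λ : AddSubgroup W}

theorem ncard_fix {A : W ≃L[ℝ] W} (hA : ∀ u, u ∈ Λ ↔ A u ∈ Λ) {f : B → B} {F : N → N}
    (E : (B × (W ⧸ Λ)) ≃ₜ N) (hE : ∀ p : B × (W ⧸ Λ), F (E p) = E (f p.1, bar A hA p.2)) (m : ℕ) :
    {x | F^[m] x = x}.ncard = {b | f^[m] b = b}.ncard * {u | (bar A hA)^[m] u = u}.ncard := by
  have h1 : {x | F^[m] x = x} = E '' ({b | f^[m] b = b} ×ˢ {u | (bar A hA)^[m] u = u}) := by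
    ext x
    obtain ⟨⟨b, u⟩, rfl⟩ := E.surjective x
    rw [E.injective.mem_set_image, mem_prod]
    show F^[m] (E (b, u)) = E (b, u) ↔ f^[m] b = b ∧ (bar A hA)^[m] u = u
    rw [E_iter hE, E.injective.eq_iff, Prod.mk.injEq]
  rw [h1, Set.ncard_image_of_injective _ E.injective, Set.ncard_prod]

theorem fix_zero_mem {A : W ≃L[ℝ] W} (hA : ∀ u, u ∈ Λ ↔ A u ∈ Λ) (m : ℕ) :
    (bar A hA)^[m] 0 = 0 := by
  induction m with
  | zero => rfl
  | succ m ih =>
    rw [Function.iterate_succ_apply', ih]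
    show bar A hA (QuotientAddGroup.mk 0) = QuotientAddGroup.mk 0
    rw [bar_mk, map_zero]

theorem ncard_eq {A : W ≃L[ℝ] W} (hA : ∀ u, u ∈ Λ ↔ A u ∈ Λ) {f g : B → B} {F G : N → N}
    (hF : Continuous F) (hG : Continuous G) (E E' : (B × (W ⧸ Λ)) ≃ₜ N)
    (hE : ∀ p : B × (W ⧸ Λ), F (E p) = E (f p.1, bar A hA p.2))
    (hE' : ∀ p : B × (W ⧸ Λ), G (E' p) = E' (g p.1, bar A hA p.2)) (hconj : OmegaConj F G)
    {m : ℕ} (hm : 1 ≤ m) (hfF : {x | F^[m] x = x}.Finite) (hfG : {x | G^[m] x = x}.Finite) :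
    {b | f^[m] b = b}.ncard = {b | g^[m] b = b}.ncard := by
  have h1 := ncard_conj hF hG hconj hm
  rw [ncard_fix hA E hE, ncard_fix hA E' hE'] at h1
  by_cases hD : {u | (bar A hA)^[m] u = u}.ncard = 0
  · have hinf : {u | (bar A hA)^[m] u = u}.Infinite := by
      intro hfin
      rw [Set.ncard_eq_zero hfin] at hD
      have h2 : (0 : W ⧸ Λ) ∈ {u | (bar A hA)^[m] u = u} := fix_zero_mem hA m
      rw [hD] at h2
      exact h2
    have key : ∀ (f' : B → B) (F' : N → N) (E'' : (B × (W ⧸ Λ)) ≃ₜ N),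
        (∀ p : B × (W ⧸ Λ), F' (E'' p) = E'' (f' p.1, bar A hA p.2)) →
        {x | F'^[m] x = x}.Finite → {b | f'^[m] b = b} = ∅ := by
      intro f' F' E'' hE'' hfin
      by_contra hne
      obtain ⟨b, hb⟩ := Set.nonempty_iff_ne_empty.2 hne
      apply hinf
      have h3 : {u | (bar A hA)^[m] u = u} ⊆ (fun u => E'' (b, u)) ⁻¹' {x | F'^[m] x = x} := by
        intro u hu
        show F'^[m] (E'' (b, u)) = E'' (b, u)
        rw [E_iter hE'', hb, hu]
      refine (hfin.preimage ?_).subset h3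
      intro u _ u' _ huu
      exact congrArg Prod.snd (E''.injective huu)
    rw [key f F E hE hfF, key g G E' hE' hfG]
  · exact Nat.eq_of_mul_eq_mul_right (Nat.pos_of_ne_zero hD) h1

end

section

variable (k : ℕ) {N : Type u} [TopologicalSpace N]
  {B : Type v} [TopologicalSpace B] [T2Space B] [CompactSpace B]
  {K : Type w} [TopologicalSpace K] [ChartedSpace (V k) K]
  {W : Type} [NormedAddCommGroup W] [NormedSpace ℝ W] {Λ : AddSubgroup W}
  [FiniteDimensional ℝ W] [DiscreteTopology Λ] [IsClosed (Λ : Set W)] [Nontrivial W]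

theorem omega_base {A : W ≃L[ℝ] W} (hA : ∀ u, u ∈ Λ ↔ A u ∈ Λ) {f : B → B} {F : N → N}
    (E : (B × (W ⧸ Λ)) ≃ₜ N) (hE : ∀ p : B × (W ⧸ Λ), F (E p) = E (f p.1, bar A hA p.2)) {b : B}
    {u : W ⧸ Λ} (h : E (b, u) ∈ Omega F) : b ∈ Omega f := by
  intro O hO hbO
  obtain ⟨m, hm, y, hy, hmy⟩ := h ((fun x => (E.symm x).1) ⁻¹' O)
    (hO.preimage (continuous_fst.comp E.symm.continuous)) (by
      show (E.symm (E (b, u))).1 ∈ O
      rw [E.symm_apply_apply]
      exact hbO)
  obtain ⟨⟨b', u'⟩, rfl⟩ := E.surjective y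
  refine ⟨m, hm, b', ?_, ?_⟩
  · have h1 : (E.symm (E (b', u'))).1 ∈ O := hy
    rwa [E.symm_apply_apply] at h1
  · have h1 : (E.symm (F^[m] (E (b', u')))).1 ∈ O := hmy
    rwa [E_iter hE, E.symm_apply_apply] at h1

theorem omega_fib (hC : ∃ C : ℝ, ∀ z : W, ∃ u ∈ Λ, ‖z - u‖ ≤ C)
    {A : W ≃L[ℝ] W} (hL : IsHypLin A) (hA : ∀ u, u ∈ Λ ↔ A u ∈ Λ) {f : B → B} {F : N → N}
    (E : (B × (W ⧸ Λ)) ≃ₜ N) (hE : ∀ p : B × (W ⧸ Λ), F (E p) = E (f p.1, bar A hA p.2))
    (hd : Omega f ⊆ closure (Per f)) {b : B} (hb : b ∈ Omega f) (u : W ⧸ Λ) :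
    E (b, u) ∈ Omega F := by
  have hcompact : CompactSpace (W ⧸ Λ) := Pool.Agent.W806.SC.comp hC
  have hnt : Nontrivial (W ⧸ Λ) := nontriv
  obtain ⟨hps, hcm⟩ := t_EX2 W Λ hC A hL hA (bar A hA) (fun z => rfl)
  have h1 : ∀ b' ∈ Per f, E (b', u) ∈ Omega F := by
    rintro b' ⟨q, hq, hqb⟩ O hO hbO
    have h2 : (fun v => E (b', v)) ⁻¹' O ∈ 𝓝 u :=
      (hO.preimage (E.continuous.comp (Continuous.prodMk_right b'))).mem_nhds hbO
    obtain ⟨η, hη, hηO⟩ := Metric.mem_nhds_iff.1 h2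
    obtain ⟨ρ₀, R, hρ₀, hfl⟩ := Pool.Agent.W816.SC.flex (W ⧸ Λ) (bar A hA) hps hcm u η hη
    obtain ⟨p', hp1, hp2, -⟩ := hfl (q * (2 * R + 1)) (by nlinarith)
    refine ⟨q * (2 * R + 1), by nlinarith, E (b', p'), hηO hp1, ?_⟩
    have h3 : f^[q * (2 * R + 1)] b' = b' := by
      have h5 : Function.IsPeriodicPt f q b' := hqb
      exact h5.mul_const (2 * R + 1)
    rw [E_iter hE, h3, hp2]
    exact hηO hp1
  have h4 : IsClosed {b' : B | E (b', u) ∈ Omega F} :=
    (Cnt.omega_closed F).preimage (E.continuous.comp (Continuous.prodMk_left u))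
  exact (closure_minimal h1 h4) (hd hb)

include k in
theorem conj_of_totDisc (hC : ∃ C : ℝ, ∀ z : W, ∃ u ∈ Λ, ‖z - u‖ ≤ C)
    {A : W ≃L[ℝ] W} (hL : IsHypLin A) (hA : ∀ u, u ∈ Λ ↔ A u ∈ Λ) (τ : K ≃ₜ W ⧸ Λ)
    {f g : B → B} {F G : N → N} (hFc : Continuous F) (hgc : Continuous g)
    (E E' : (B × (W ⧸ Λ)) ≃ₜ N) (hE : ∀ p : B × (W ⧸ Λ), F (E p) = E (f p.1, bar A hA p.2))
    (hE' : ∀ p : B × (W ⧸ Λ), G (E' p) = E' (g p.1, bar A hA p.2)) (hconj : OmegaConj F G)
    (hdf : Omega f ⊆ closure (Per f)) (hdg : Omega g ⊆ closure (Per g))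
    (ht : IsTotallyDisconnected (Omega f)) : OmegaConj f g := by
  have hcompact : CompactSpace (W ⧸ Λ) := Pool.Agent.W806.SC.comp hC
  have hconn : ConnectedSpace (W ⧸ Λ) :=
    (QuotientAddGroup.mk_surjective (s := Λ)).connectedSpace QuotientAddGroup.continuous_mk
  obtain ⟨h, hh⟩ := hconj
  have hω : ∀ (β : Omega g) (u : W ⧸ Λ), E' ((β : B), u) ∈ Omega G := fun β u =>
    omega_fib hC hL hA E' hE' hdg β.2 u
  let ll : Omega g × (W ⧸ Λ) → B × (W ⧸ Λ) := fun q =>
    E.symm (h.symm ⟨E' ((q.1 : B), q.2), hω q.1 q.2⟩ : N)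
  have hlc : Continuous ll := by
    refine E.symm.continuous.comp (continuous_subtype_val.comp (h.symm.continuous.comp ?_))
    exact (E'.continuous.comp ((continuous_subtype_val.comp continuous_fst).prodMk
      continuous_snd)).subtype_mk _
  have hElam : ∀ q, E (ll q) = (h.symm ⟨E' ((q.1 : B), q.2), hω q.1 q.2⟩ : N) :=
    fun q => E.apply_symm_apply _
  have hli : Function.Injective ll := by
    intro q q' hqq
    have h1 := h.symm.injective (Subtype.val_injective (E.symm.injective hqq))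
    have h2 := congrArg Subtype.val h1
    have h3 := E'.injective h2
    exact Prod.ext (Subtype.ext (Prod.mk.inj h3).1) (Prod.mk.inj h3).2
  have hlω : ∀ q, (ll q).1 ∈ Omega f := by
    intro q
    refine omega_base (u := (ll q).2) hA E hE ?_
    have h1 : E (ll q) ∈ Omega F := by
      rw [hElam]
      exact (h.symm _).2
    exact h1
  -- the first coordinate is constant on the fibres
  have hconst : ∀ (β : Omega g) (u u' : W ⧸ Λ), (ll (β, u)).1 = (ll (β, u')).1 := by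
    intro β u u'
    have h1 : Continuous fun v : W ⧸ Λ => (ll (β, v)).1 :=
      continuous_fst.comp (hlc.comp (Continuous.prodMk_right β))
    have h2 : IsPreconnected (range fun v : W ⧸ Λ => (ll (β, v)).1) :=
      isPreconnected_range h1
    have h3 : (range fun v : W ⧸ Λ => (ll (β, v)).1) ⊆ Omega f := by
      rintro _ ⟨v, rfl⟩
      exact hlω _
    exact ht _ h3 h2 ⟨u, rfl⟩ ⟨u', rfl⟩
  -- the second coordinate is onto
  have hsurj : ∀ β : Omega g, Function.Surjective fun v : W ⧸ Λ => (ll (β, v)).2 := by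
    intro β
    let κ : K → K := fun x => τ.symm (ll (β, τ x)).2
    have hκ : Continuous κ := τ.symm.continuous.comp
      (continuous_snd.comp (hlc.comp ((Continuous.prodMk_right β).comp τ.continuous)))
    have hκi : Function.Injective κ := by
      intro x x' hxx
      have h1 : (ll (β, τ x)).2 = (ll (β, τ x')).2 := τ.symm.injective hxx
      have h2 := hli (Prod.ext (hconst β (τ x) (τ x')) h1)
      exact τ.injective (congrArg Prod.snd h2)
    have hKc : CompactSpace K := τ.symm.compactSpace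
    have hKt : T2Space K := τ.symm.t2Space
    have hKconn : ConnectedSpace K := τ.symm.surjective.connectedSpace τ.symm.continuous
    have hopen : IsOpen (range κ) := by
      rw [isOpen_iff_mem_nhds]
      rintro _ ⟨x, rfl⟩
      have h3 := Pool.Agent.TH553.K289.image_nhds (E := V k) (E' := V k) le_rfl hκ
        (x := x) Filter.univ_mem hκi.injOn Filter.univ_mem
      rwa [image_univ] at h3
    have hclosed : IsClosed (range κ) := (isCompact_range hκ).isClosed
    have huniv : range κ = univ := IsClopen.eq_univ ⟨hclosed, hopen⟩ (range_nonempty κ)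
    intro v
    obtain ⟨x, hx⟩ : τ.symm v ∈ range κ := by rw [huniv]; exact mem_univ _
    exact ⟨τ x, τ.symm.injective hx⟩
  -- the conjugacy
  let kk : Omega g → Omega f := fun β => ⟨(ll (β, 0)).1, hlω _⟩
  have hkc : Continuous kk :=
    (continuous_fst.comp (hlc.comp (Continuous.prodMk_left 0))).subtype_mk _
  have hki : Function.Injective kk := by
    intro β β' hβ
    have h1 : (ll (β, 0)).1 = (ll (β', 0)).1 := congrArg Subtype.val hβ
    obtain ⟨v, hv⟩ := hsurj β (ll (β', 0)).2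
    have h2 : ll (β, v) = ll (β', 0) := Prod.ext ((hconst β v 0).trans h1) hv
    exact congrArg Prod.fst (hli h2)
  have hks : Function.Surjective kk := by
    intro b
    have h1 : E ((b : B), 0) ∈ Omega F := omega_fib hC hL hA E hE hdf b.2 0
    obtain ⟨⟨β, u⟩, hβ⟩ := E'.surjective (h ⟨E ((b : B), 0), h1⟩ : N)
    have hβω : β ∈ Omega g := by
      refine omega_base (u := u) hA E' hE' ?_
      rw [hβ]
      exact (h _).2
    refine ⟨⟨β, hβω⟩, ?_⟩
    apply Subtype.ext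
    show (ll (⟨β, hβω⟩, 0)).1 = b
    rw [hconst ⟨β, hβω⟩ 0 u]
    have h2 : (⟨E' (((⟨β, hβω⟩ : Omega g) : B), u), hω _ _⟩ : Omega G) =
        h ⟨E ((b : B), 0), h1⟩ := Subtype.ext hβ
    show (E.symm (h.symm ⟨E' (((⟨β, hβω⟩ : Omega g) : B), u), hω _ _⟩ : N)).1 = b
    rw [h2, h.symm_apply_apply, E.symm_apply_apply]
  have hgcomp : CompactSpace (Omega g) := isCompact_iff_compactSpace.1
    (Cnt.omega_closed g).isCompact
  let hom : Omega g ≃ₜ Omega f :=
    Continuous.homeoOfEquivCompactToT2 (f := Equiv.ofBijective kk ⟨hki, hks⟩) hkc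
  have hg : OmegaConj g f := by
    refine ⟨hom, fun x y hxy => ?_⟩
    show f (kk x) = kk y
    show f (ll (x, 0)).1 = (ll (y, 0)).1
    have hsym := conj_symm hFc h hh
    have h1 := hsym ⟨E' ((x : B), 0), hω x 0⟩ ⟨E' ((y : B), 0), hω y 0⟩ (by
      show G (E' ((x : B), 0)) = E' ((y : B), 0)
      have h2 : bar A hA 0 = 0 := fix_zero_mem hA 1
      rw [hE', hxy, h2])
    rw [← hElam (x, 0), ← hElam (y, 0), hE] at h1
    exact congrArg Prod.fst (E.injective h1)
  exact omegaConj_symm hgc hg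

end

end Pool.Agent.R773.TE
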